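import Mathlib

/-! Filtered diagram chases for short exact sequences of complexes of free modules. -/

namespace Pool.Agent.H832Z.Kos

open Matrix

variable {A : Type*} [Ring A]

/-- A sequence of free modules with differentials. -/
structure Cx (A : Type*) [Ring A] where
  /-- ranks -/
  r : ℕ → ℕ
  /-- differentials -/
  D : ∀ i, Matrix (Fin (r (i + 1))) (Fin (r i)) A

/-- integer matrices as matrices over `A`. -/
def cst (A : Type*) [Ring A] {p q : ℕ} (M : Matrix (Fin p) (Fin q) ℤ) : Matrix (Fin p) (Fin q) A :=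
  M.map (Int.castRingHom A)

theorem cst_mul {p q s : ℕ} (M : Matrix (Fin p) (Fin q) ℤ) (N : Matrix (Fin q) (Fin s) ℤ) :
    cst A M * cst A N = cst A (M * N) := by
  unfold cst
  rw [Matrix.map_mul]

theorem cst_one {p : ℕ} : cst A (1 : Matrix (Fin p) (Fin p) ℤ) = 1 := by
  unfold cst
  exact Matrix.map_one _ (map_zero _) (map_one _)

theorem cst_zero {p q : ℕ} : cst A (0 : Matrix (Fin p) (Fin q) ℤ) = 0 := by
  unfold cst
  exact Matrix.map_zero _ (map_zero _)

theorem cst_add {p q : ℕ} (M N : Matrix (Fin p) (Fin q) ℤ) :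
    cst A (M + N) = cst A M + cst A N := by
  unfold cst
  exact Matrix.map_add _ (map_add _) _ _

/-- vectors with all entries in a subgroup -/
def InG (H : AddSubgroup A) {p : ℕ} (v : Fin p → A) : Prop := ∀ a, v a ∈ H

theorem InG.cst {H : AddSubgroup A} {p q : ℕ} {v : Fin p → A} (hv : InG H v)
    (M : Matrix (Fin p) (Fin q) ℤ) : InG H (v ᵥ* cst A M) := by
  intro b
  simp only [vecMul, dotProduct, Kos.cst, Matrix.map_apply, eq_intCast]
  refine sum_mem fun a _ => ?_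
  rw [← zsmul_eq_mul']
  exact zsmul_mem (hv a) _

theorem InG.add {H : AddSubgroup A} {p : ℕ} {v w : Fin p → A} (hv : InG H v) (hw : InG H w) :
    InG H (v + w) := fun a => add_mem (hv a) (hw a)

theorem InG.sub {H : AddSubgroup A} {p : ℕ} {v w : Fin p → A} (hv : InG H v) (hw : InG H w) :
    InG H (v - w) := fun a => sub_mem (hv a) (hw a)

/-- filtered exactness at position `i + 1` in filtration level `n` -/
def PP (G : ℕ → AddSubgroup A) (X : Cx A) (i n : ℕ) : Prop :=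
  ∀ z : Fin (X.r (i + 1)) → A, InG (G n) z → z ᵥ* X.D i = 0 →
    ∃ w : Fin (X.r (i + 2)) → A, InG (G (n - 1)) w ∧ w ᵥ* X.D (i + 1) = z

/-- the differentials raise the filtration level by one -/
def Raise (G : ℕ → AddSubgroup A) (X : Cx A) : Prop :=
  ∀ i n (v : Fin (X.r (i + 1)) → A), InG (G (n - 1)) v → InG (G n) (v ᵥ* X.D i)

/-- `d² = 0` -/
def Sq (X : Cx A) : Prop := ∀ i, X.D (i + 1) * X.D i = 0

/-- A degreewise split short exact sequence `0 → L → J → C[-1] → 0`. -/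
structure SES (L J C : Cx A) where
  /-- inclusion -/
  io : ∀ i, Matrix (Fin (L.r i)) (Fin (J.r i)) ℤ
  /-- retraction -/
  tt : ∀ i, Matrix (Fin (J.r i)) (Fin (L.r i)) ℤ
  /-- projection -/
  rho : ∀ i, Matrix (Fin (J.r (i + 1))) (Fin (C.r i)) ℤ
  /-- section -/
  sg : ∀ i, Matrix (Fin (C.r i)) (Fin (J.r (i + 1))) ℤ
  h1 : ∀ i, cst A (io (i + 1)) * J.D i = L.D i * cst A (io i)
  h2 : ∀ i, cst A (rho (i + 1)) * C.D i = J.D (i + 1) * cst A (rho i)
  h3 : ∀ i, io (i + 1) * rho i = 0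
  h4 : ∀ i, sg i * rho i = 1
  h5 : ∀ i, io i * tt i = 1
  h6 : ∀ i, rho i * sg i + tt (i + 1) * io (i + 1) = 1

variable {L J C : Cx A} (S : SES L J C) {G : ℕ → AddSubgroup A}

theorem SES.inj {i : ℕ} {v w : Fin (L.r i) → A}
    (h : v ᵥ* cst A (S.io i) = w ᵥ* cst A (S.io i)) : v = w := by
  have := congrArg (fun x => x ᵥ* cst A (S.tt i)) h
  simpa only [vecMul_vecMul, cst_mul, S.h5, cst_one, vecMul_one] using this

theorem SES.mid {i : ℕ} {y : Fin (J.r (i + 1)) → A} (h : y ᵥ* cst A (S.rho i) = 0) :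
    (y ᵥ* cst A (S.tt (i + 1))) ᵥ* cst A (S.io (i + 1)) = y := by
  have h6 := congrArg (fun M => y ᵥ* cst A M) (S.h6 i)
  simp only [cst_add, ← cst_mul, vecMul_add, ← vecMul_vecMul, h, cst_one, vecMul_one,
    zero_vecMul, zero_add] at h6
  exact h6

include S in
theorem SES.sq (hJ : Sq J) : Sq L := by
  intro i
  have h : L.D (i + 1) * L.D i * cst A (S.io i) = 0 := by
    rw [Matrix.mul_assoc, ← S.h1, ← Matrix.mul_assoc, ← S.h1, Matrix.mul_assoc, hJ i,
      Matrix.mul_zero]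
  have h' := congrArg (fun M => M * cst A (S.tt i)) h
  simpa only [Matrix.mul_assoc, cst_mul, S.h5, cst_one, Matrix.mul_one, Matrix.zero_mul] using h'

include S in
theorem SES.up (hJ : Sq J) (hR : Raise G J) {i n : ℕ} (pJ : PP G J i n) (pC : PP G C i (n - 1)) :
    PP G L i n := by
  intro z hz hd
  obtain ⟨w, hw, hwz⟩ := pJ (z ᵥ* cst A (S.io (i + 1))) (hz.cst _) (by
    rw [vecMul_vecMul, S.h1, ← vecMul_vecMul, hd, zero_vecMul])
  obtain ⟨v, hv, hvw⟩ := pC (w ᵥ* cst A (S.rho (i + 1))) (hw.cst _) (by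
    rw [vecMul_vecMul, S.h2, ← vecMul_vecMul, hwz, vecMul_vecMul, cst_mul, S.h3, cst_zero,
      vecMul_zero])
  set u := v ᵥ* cst A (S.sg (i + 2)) with hu
  have hy : (w - u ᵥ* J.D (i + 2)) ᵥ* cst A (S.rho (i + 1)) = 0 := by
    rw [sub_vecMul, vecMul_vecMul u, ← S.h2, ← vecMul_vecMul u, hu, vecMul_vecMul v, cst_mul,
      S.h4, cst_one, vecMul_one, hvw, sub_self]
  refine ⟨(w - u ᵥ* J.D (i + 2)) ᵥ* cst A (S.tt (i + 2)),
    (hw.sub (hR _ _ _ (hv.cst _))).cst _, S.inj ?_⟩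
  rw [vecMul_vecMul _ (L.D _), ← S.h1, ← vecMul_vecMul, S.mid hy, sub_vecMul, vecMul_vecMul u,
    hJ (i + 1), vecMul_zero, sub_zero, hwz]

include S in
theorem SES.down (hJ : Sq J) (hR : Raise G J) {i n : ℕ} (pL : PP G L (i + 1) n)
    (pC : PP G C i n) : PP G J (i + 1) n := by
  intro z hz hd
  obtain ⟨u, hu, huz⟩ := pC (z ᵥ* cst A (S.rho (i + 1))) (hz.cst _) (by
    rw [vecMul_vecMul, S.h2, ← vecMul_vecMul, hd, zero_vecMul])
  set u' := u ᵥ* cst A (S.sg (i + 2)) with hu'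
  have hy : (z - u' ᵥ* J.D (i + 2)) ᵥ* cst A (S.rho (i + 1)) = 0 := by
    rw [sub_vecMul, vecMul_vecMul u', ← S.h2, ← vecMul_vecMul u', hu', vecMul_vecMul u, cst_mul,
      S.h4, cst_one, vecMul_one, huz, sub_self]
  obtain ⟨w, hw, hwz⟩ := pL ((z - u' ᵥ* J.D (i + 2)) ᵥ* cst A (S.tt (i + 2)))
    ((hz.sub (hR _ _ _ (hu.cst _))).cst _) (S.inj (by
      rw [vecMul_vecMul _ (L.D _), ← S.h1, ← vecMul_vecMul, S.mid hy, sub_vecMul,
        vecMul_vecMul u', hJ (i + 1), vecMul_zero, sub_zero, hd, zero_vecMul]))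
  refine ⟨u' + w ᵥ* cst A (S.io (i + 3)), (hu.cst _).add (hw.cst _), ?_⟩
  rw [add_vecMul, vecMul_vecMul w, S.h1, ← vecMul_vecMul w, hwz, S.mid hy, add_sub_cancel]

theorem PP_zero (hG : G 0 = ⊥) (X : Cx A) (i : ℕ) : PP G X i 0 := by
  intro z hz _
  have : z = 0 := by
    ext a
    have := hz a
    rwa [hG, AddSubgroup.mem_bot] at this
  exact ⟨0, fun _ => zero_mem _, by rw [this, zero_vecMul]⟩

/-- The Koszul filtration argument. -/
theorem koszul_filtration (hG : G 0 = ⊥) (N : ℕ) (X : ℕ → Cx A) (Jf Cf : ℕ → ℕ)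
    (S : ∀ f, 0 < f → f ≤ N → SES (X f) (X (Jf f)) (X (Cf f)))
    (hJ : ∀ f, 0 < f → f ≤ N → Jf f < f) (hC : ∀ f, 0 < f → f ≤ N → Cf f ≤ N)
    (hR : ∀ f, Raise G (X f)) (hsq : Sq (X 0)) (htop : ∀ i, (X N).r (i + 1) = 0)
    (hbase : ∀ n, PP G (X 0) 0 n) : ∀ i n, PP G (X 0) i n := by
  have sq : ∀ f, f ≤ N → Sq (X f) := by
    intro f
    induction f using Nat.strong_induction_on with
    | _ f ih =>
      intro hf
      rcases Nat.eq_zero_or_pos f with rfl | h0
      · exact hsq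
      · exact (S f h0 hf).sq (ih _ (hJ f h0 hf) ((hJ f h0 hf).le.trans hf))
  have spread : ∀ i, (∀ n, PP G (X 0) i n) → ∀ n f, f ≤ N → PP G (X f) i n := by
    intro i h n
    induction n with
    | zero => exact fun f _ => PP_zero hG _ _
    | succ n ihn =>
      intro f
      induction f using Nat.strong_induction_on with
      | _ f ih =>
        intro hf
        rcases Nat.eq_zero_or_pos f with rfl | h0
        · exact h _
        · have hj := hJ f h0 hf
          exact (S f h0 hf).up (sq _ (hj.le.trans hf)) (hR _) (ih _ hj (hj.le.trans hf))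
            (ihn _ (hC f h0 hf))
  intro i
  induction i with
  | zero => exact hbase
  | succ i ih =>
    intro n
    have key : ∀ f, f ≤ N → PP G (X f) (i + 1) n → PP G (X 0) (i + 1) n := by
      intro f
      induction f using Nat.strong_induction_on with
      | _ f ihf =>
        intro hf hp
        rcases Nat.eq_zero_or_pos f with rfl | h0
        · exact hp
        · have hj := hJ f h0 hf
          exact ihf _ hj (hj.le.trans hf) ((S f h0 hf).down (sq _ (hj.le.trans hf)) (hR _) hp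
            (spread i ih n _ (hC f h0 hf)))
    refine key N le_rfl fun z _ _ => ⟨0, fun _ => zero_mem _, ?_⟩
    ext a
    exact absurd (a.isLt.trans_eq (htop _)) (Nat.not_lt_zero _)

/-- matrices of linear forms with integer coefficients -/
def lin {m : ℕ} (x : Fin m → A) {p q : ℕ} (N : Fin m → Matrix (Fin p) (Fin q) ℤ) :
    Matrix (Fin p) (Fin q) A :=
  Matrix.of fun a b => ∑ j, N j a b • x j

theorem cst_mul_lin {m : ℕ} (x : Fin m → A) {p q s : ℕ} (M : Matrix (Fin p) (Fin q) ℤ)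
    (N : Fin m → Matrix (Fin q) (Fin s) ℤ) : cst A M * lin x N = lin x fun j => M * N j := by
  ext a b
  simp only [cst, lin, Matrix.mul_apply, Matrix.map_apply, Matrix.of_apply, eq_intCast,
    Finset.mul_sum, Finset.sum_smul]
  rw [Finset.sum_comm]
  refine Finset.sum_congr rfl fun j _ => Finset.sum_congr rfl fun c _ => ?_
  rw [← zsmul_eq_mul, mul_smul]

theorem lin_mul_cst {m : ℕ} (x : Fin m → A) {p q s : ℕ} (N : Fin m → Matrix (Fin p) (Fin q) ℤ)
    (M : Matrix (Fin q) (Fin s) ℤ) : lin x N * cst A M = lin x fun j => N j * M := by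
  ext a b
  simp only [cst, lin, Matrix.mul_apply, Matrix.map_apply, Matrix.of_apply, eq_intCast,
    Finset.sum_mul, Finset.sum_smul]
  rw [Finset.sum_comm]
  refine Finset.sum_congr rfl fun j _ => Finset.sum_congr rfl fun c _ => ?_
  rw [← zsmul_eq_mul', mul_comm (N j a c), mul_smul]

theorem lin_mul_lin {m : ℕ} (x : Fin m → A) {p q s : ℕ} (N : Fin m → Matrix (Fin p) (Fin q) ℤ)
    (M : Fin m → Matrix (Fin q) (Fin s) ℤ) (a : Fin p) (b : Fin s) :
    (lin x N * lin x M) a b = ∑ j, ∑ l, (N j * M l) a b • (x j * x l) := by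
  simp only [lin, Matrix.mul_apply, Matrix.of_apply, Finset.sum_mul, Finset.mul_sum,
    Finset.sum_smul]
  rw [Finset.sum_comm]
  simp only [Finset.sum_comm (s := (Finset.univ : Finset (Fin q)))]
  rw [Finset.sum_comm]
  refine Finset.sum_congr rfl fun j _ => Finset.sum_congr rfl fun l _ =>
    Finset.sum_congr rfl fun c _ => ?_
  rw [smul_mul_smul_comm]

theorem lin_mul_lin_zero {m t : ℕ} (x : Fin m → A) (rel : Fin m → Matrix (Fin t) (Fin m) ℤ)
    (hrel : ∀ r, ∑ j, ∑ l, rel j r l • (x j * x l) = 0) {p q s : ℕ}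
    (N : Fin m → Matrix (Fin p) (Fin q) ℤ) (M : Fin m → Matrix (Fin q) (Fin s) ℤ)
    (Q : Fin t → Matrix (Fin p) (Fin s) ℤ) (h : ∀ j l, N j * M l = ∑ r, rel j r l • Q r) :
    lin x N * lin x M = 0 := by
  ext a b
  rw [lin_mul_lin, Matrix.zero_apply]
  have h' : ∀ j l, (N j * M l) a b • (x j * x l) = ∑ r, Q r a b • (rel j r l • (x j * x l)) := by
    intro j l
    rw [h j l, Matrix.sum_apply, Finset.sum_smul]
    refine Finset.sum_congr rfl fun r _ => ?_
    rw [Matrix.smul_apply, smul_eq_mul, mul_comm, mul_smul]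
  simp only [h']
  have h3 : ∀ r, ∑ j, ∑ l, Q r a b • (rel j r l • (x j * x l)) = 0 := by
    intro r
    simp only [← Finset.smul_sum]
    rw [hrel, smul_zero]
  calc _ = ∑ j, ∑ r, ∑ l, Q r a b • (rel j r l • (x j * x l)) :=
        Finset.sum_congr rfl fun j _ => Finset.sum_comm
    _ = ∑ r, ∑ j, ∑ l, Q r a b • (rel j r l • (x j * x l)) := Finset.sum_comm
    _ = 0 := Finset.sum_eq_zero fun r _ => h3 r

theorem cst_lin_comm {m : ℕ} (x : Fin m → A) {p q q' s : ℕ} (M : Matrix (Fin p) (Fin q) ℤ)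
    (N : Fin m → Matrix (Fin q) (Fin s) ℤ) (N' : Fin m → Matrix (Fin p) (Fin q') ℤ)
    (M' : Matrix (Fin q') (Fin s) ℤ) (h : ∀ j, M * N j = N' j * M') :
    cst A M * lin x N = lin x N' * cst A M' := by
  rw [cst_mul_lin, lin_mul_cst]
  congr 1
  funext j
  exact h j

theorem lin_col {m : ℕ} (x : Fin m → A) (N : Fin m → Matrix (Fin m) (Fin 1) ℤ)
    (hN : ∀ j a b, N j a b = if a = j then 1 else 0) (z : Fin m → A) (b : Fin 1) :
    (z ᵥ* lin x N) b = ∑ l, z l * x l := by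
  simp [vecMul, dotProduct, lin, hN]

theorem InG.lin {m : ℕ} {x : Fin m → A} {H H' : AddSubgroup A}
    (hx : ∀ a ∈ H, ∀ j, a * x j ∈ H') {p q : ℕ} {v : Fin p → A} (hv : InG H v)
    (N : Fin m → Matrix (Fin p) (Fin q) ℤ) : InG H' (v ᵥ* lin x N) := by
  intro b
  simp only [vecMul, dotProduct, Kos.lin, Matrix.of_apply, Finset.mul_sum]
  refine sum_mem fun a _ => sum_mem fun j _ => ?_
  rw [mul_smul_comm]
  exact zsmul_mem (hx _ (hv a) j) _

end Pool.Agent.H832Z.Kos
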