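import Pool.Agent.H832Z.KosExt
import Pool.Agent.H832Z.KosChase

/-! Grading and low degree exactness for quadratic algebras. -/

namespace Pool.Agent.H832Z.Kos

open TensorProduct Matrix Polynomial

universe u

variable {k : Type u} [Field k] {V : Type u} [AddCommGroup V] [Module k V]

theorem gen_eq (R : Submodule k (V ⊗[k] V)) (v : V) :
    gen R v = RingQuot.mkAlgHom k (QuadRel R) (TensorAlgebra.ι k v) := rfl

theorem alg_induction (R : Submodule k (V ⊗[k] V)) {P : QuadAlg R → Prop}
    (h0 : ∀ c, P (algebraMap k _ c)) (h1 : ∀ v, P (gen R v))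
    (hm : ∀ a b, P a → P b → P (a * b)) (ha : ∀ a b, P a → P b → P (a + b)) (a : QuadAlg R) :
    P a := by
  obtain ⟨t, rfl⟩ := RingQuot.mkAlgHom_surjective k (QuadRel R) a
  induction t using TensorAlgebra.induction with
  | algebraMap c => rw [AlgHom.commutes]; exact h0 c
  | ι v => exact h1 v
  | mul a b iha ihb => rw [map_mul]; exact hm _ _ iha ihb
  | add a b iha ihb => rw [map_add]; exact ha _ _ iha ihb

theorem mk_degTwo (R : Submodule k (V ⊗[k] V)) {r : V ⊗[k] V} (hr : r ∈ R) :
    RingQuot.mkAlgHom k (QuadRel R) (degTwo r) = 0 := by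
  rw [RingQuot.mkAlgHom_rel k (s := QuadRel R) ⟨r, hr, rfl, rfl⟩, map_zero]

theorem degTwo_tmul (v w : V) :
    (degTwo (v ⊗ₜ[k] w) : TensorAlgebra k V) = TensorAlgebra.ι k v * TensorAlgebra.ι k w := by
  simp [degTwo]

/-- the linear map `v ↦ v t` -/
noncomputable def genT (R : Submodule k (V ⊗[k] V)) : V →ₗ[k] (QuadAlg R)[X] :=
  ((monomial 1 : QuadAlg R →ₗ[QuadAlg R] (QuadAlg R)[X]).restrictScalars k) ∘ₗ gen R

theorem lift_genT (R : Submodule k (V ⊗[k] V)) (r : V ⊗[k] V) :
    TensorAlgebra.lift k (genT R) (degTwo r) =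
      monomial 2 (RingQuot.mkAlgHom k (QuadRel R) (degTwo r)) := by
  induction r with
  | zero => simp
  | tmul v w =>
    rw [degTwo_tmul, map_mul, map_mul, TensorAlgebra.lift_ι_apply, TensorAlgebra.lift_ι_apply]
    simp only [genT, LinearMap.comp_apply, LinearMap.restrictScalars_apply, monomial_mul_monomial]
    rfl
  | add a b ha hb => simp only [map_add, ha, hb]

/-- the grading homomorphism `A → A[t]` -/
noncomputable def dl (R : Submodule k (V ⊗[k] V)) : QuadAlg R →ₐ[k] (QuadAlg R)[X] :=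
  RingQuot.liftAlgHom k ⟨TensorAlgebra.lift k (genT R), by
    rintro x y ⟨r, hr, rfl, rfl⟩
    rw [lift_genT, mk_degTwo R hr, map_zero, map_zero]⟩

variable (R : Submodule k (V ⊗[k] V))

theorem dl_gen (v : V) : dl R (gen R v) = monomial 1 (gen R v) := by
  conv_lhs => rw [gen_eq, dl, RingQuot.liftAlgHom_mkAlgHom_apply, TensorAlgebra.lift_ι_apply]
  rfl

theorem dl_alg (c : k) : dl R (algebraMap k _ c) = monomial 0 (algebraMap k _ c) := by
  rw [AlgHom.commutes]
  rfl

theorem eval_dl (a : QuadAlg R) : (dl R a).eval 1 = a := by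
  induction a using alg_induction R with
  | h0 c => rw [dl_alg]; simp
  | h1 v => rw [dl_gen]; simp
  | hm a b ha hb =>
    rw [map_mul, eval, eval₂_mul_noncomm _ _ (fun _ => Commute.one_right _)]
    change (dl R a).eval 1 * (dl R b).eval 1 = _
    rw [ha, hb]
  | ha a b ha hb => rw [map_add, eval_add, ha, hb]

theorem dl_coeff (a : QuadAlg R) :
    ∀ l, dl R ((dl R a).coeff l) = monomial l ((dl R a).coeff l) := by
  induction a using alg_induction R with
  | h0 c =>
    intro l
    rw [dl_alg, coeff_monomial]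
    split_ifs with h
    · subst h; exact dl_alg R c
    · simp
  | h1 v =>
    intro l
    rw [dl_gen, coeff_monomial]
    split_ifs with h
    · subst h; exact dl_gen R v
    · simp
  | hm a b ha hb =>
    intro l
    rw [map_mul, coeff_mul, map_sum, map_sum]
    refine Finset.sum_congr rfl fun c hc => ?_
    rw [map_mul, ha, hb, monomial_mul_monomial, Finset.HasAntidiagonal.mem_antidiagonal.1 hc]
  | ha a b ha hb =>
    intro l
    rw [map_add, coeff_add, map_add, map_add, ha, hb]

/-- the filtration by degree `< n` -/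
def GG (n : ℕ) : AddSubgroup (QuadAlg R) where
  carrier := {a | ∀ m, n ≤ m → (dl R a).coeff m = 0}
  add_mem' := by
    intro a b ha hb m hm
    rw [map_add, coeff_add, ha m hm, hb m hm, add_zero]
  zero_mem' := by
    intro m _
    simp
  neg_mem' := by
    intro a ha m hm
    rw [map_neg, coeff_neg, ha m hm, neg_zero]

/-- truncation to degree `< n` -/
noncomputable def tr (n : ℕ) : QuadAlg R →+ QuadAlg R where
  toFun a := ∑ m ∈ Finset.range n, (dl R a).coeff m
  map_zero' := by simp
  map_add' a b := by simp [Finset.sum_add_distrib]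

theorem tr_apply (n : ℕ) (a : QuadAlg R) :
    tr R n a = ∑ m ∈ Finset.range n, (dl R a).coeff m := rfl

theorem tr_of_mem {n : ℕ} {a : QuadAlg R} (ha : a ∈ GG R n) : tr R n a = a := by
  have h : dl R a = ∑ m ∈ Finset.range n, monomial m ((dl R a).coeff m) := by
    ext l
    rw [finsetSum_coeff]
    simp only [coeff_monomial, Finset.sum_ite_eq', Finset.mem_range]
    split_ifs with h
    · rfl
    · exact ha l (not_lt.1 h)
  conv_rhs => rw [← eval_dl R a, h, eval_finsetSum]
  simp [tr_apply]

theorem tr_mem (n : ℕ) (a : QuadAlg R) : tr R n a ∈ GG R n := by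
  intro l hl
  rw [tr_apply, map_sum, finsetSum_coeff]
  refine Finset.sum_eq_zero fun m hm => ?_
  rw [dl_coeff, coeff_monomial, if_neg]
  have := Finset.mem_range.1 hm
  omega

theorem GG_zero : GG R 0 = ⊥ := by
  rw [eq_bot_iff]
  intro a ha
  rw [AddSubgroup.mem_bot, ← tr_of_mem R ha]
  simp [tr_apply]

theorem coeff_mul_gen (a : QuadAlg R) (v : V) (m : ℕ) :
    (dl R (a * gen R v)).coeff (m + 1) = (dl R a).coeff m * gen R v := by
  rw [map_mul, dl_gen, coeff_mul_monomial]

theorem coeff_mul_gen_zero (a : QuadAlg R) (v : V) : (dl R (a * gen R v)).coeff 0 = 0 := by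
  rw [map_mul, dl_gen, mul_coeff_zero]
  simp [coeff_monomial]

theorem tr_mul_gen (n : ℕ) (a : QuadAlg R) (v : V) :
    tr R (n + 1) (a * gen R v) = tr R n a * gen R v := by
  rw [tr_apply, Finset.sum_range_succ', coeff_mul_gen_zero, add_zero, tr_apply, Finset.sum_mul]
  exact Finset.sum_congr rfl fun m _ => coeff_mul_gen R a v m

theorem mul_gen_mem (n : ℕ) (a : QuadAlg R) (ha : a ∈ GG R (n - 1)) (v : V) :
    a * gen R v ∈ GG R n := by
  intro m hm
  rcases m with _ | m
  · exact coeff_mul_gen_zero R a v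
  · rw [coeff_mul_gen, ha m (by omega), zero_mul]

theorem exists_InG {p : ℕ} (z : Fin p → QuadAlg R) : ∃ n, InG (GG R n) z := by
  refine ⟨(Finset.univ.sup fun a => (dl R (z a)).natDegree) + 1, fun a m hm => ?_⟩
  apply coeff_eq_zero_of_natDegree_lt
  have : (dl R (z a)).natDegree ≤ Finset.univ.sup fun a => (dl R (z a)).natDegree :=
    Finset.le_sup (f := fun a => (dl R (z a)).natDegree) (Finset.mem_univ a)
  omega

theorem truncate {m p q : ℕ} (e : Fin m → V) (N : Fin m → Matrix (Fin p) (Fin q) ℤ) {n : ℕ}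
    {w : Fin p → QuadAlg R} (hz : InG (GG R n) (w ᵥ* lin (fun j => gen R (e j)) N)) :
    ∃ w' : Fin p → QuadAlg R, InG (GG R (n - 1)) w' ∧
      w' ᵥ* lin (fun j => gen R (e j)) N = w ᵥ* lin (fun j => gen R (e j)) N := by
  rcases n with _ | n
  · refine ⟨0, fun _ => zero_mem _, ?_⟩
    ext b
    have := hz b
    rw [GG_zero, AddSubgroup.mem_bot] at this
    rw [this, zero_vecMul]
    rfl
  · refine ⟨fun a => tr R n (w a), fun a => tr_mem R n _, ?_⟩
    ext b
    rw [← tr_of_mem R (hz b)]
    simp only [vecMul, dotProduct, lin, Matrix.of_apply, Finset.mul_sum, map_sum, mul_smul_comm,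
      map_zsmul, tr_mul_gen]

end Pool.Agent.H832Z.Kos
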