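import Pool.Agent.H832Z.KosData

/-! Finite verification of the Koszul filtration data. -/

namespace Pool.Agent.H832Z.Kos

open Matrix

/-- a matrix from a list of rows -/
def mat (p q : ℕ) (l : List (List ℤ)) : Matrix (Fin p) (Fin q) ℤ :=
  Matrix.of fun a b => (l.getD a []).getD b 0

/-- ranks -/
def rr (f i : ℕ) : ℕ := (rrL.getD f []).getD i 0

/-- smaller member -/
def Jf (f : ℕ) : ℕ := JfL.getD f 0

/-- colon member -/
def Cf (f : ℕ) : ℕ := CfL.getD f 0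

/-- differentials -/
def DM (f i : ℕ) (j : Fin 4) : Matrix (Fin (rr f (i + 1))) (Fin (rr f i)) ℤ :=
  mat _ _ (((DDL.getD f []).getD i []).getD j [])

/-- inclusions -/
def ioM (f i : ℕ) : Matrix (Fin (rr f i)) (Fin (rr (Jf f) i)) ℤ :=
  mat _ _ ((ioL.getD f []).getD i [])

/-- retractions -/
def ttM (f i : ℕ) : Matrix (Fin (rr (Jf f) i)) (Fin (rr f i)) ℤ :=
  mat _ _ ((ttL.getD f []).getD i [])

/-- projections -/
def rhM (f i : ℕ) : Matrix (Fin (rr (Jf f) (i + 1))) (Fin (rr (Cf f) i)) ℤ :=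
  mat _ _ ((rhL.getD f []).getD i [])

/-- sections -/
def sgM (f i : ℕ) : Matrix (Fin (rr (Cf f) i)) (Fin (rr (Jf f) (i + 1))) ℤ :=
  mat _ _ ((sgL.getD f []).getD i [])

theorem rr_big (f i : ℕ) (hi : 7 ≤ i) : rr f i = 0 := by
  have h : ∀ l ∈ rrL, l.length ≤ 7 := by decide
  unfold rr
  apply List.getD_eq_default
  rcases Nat.lt_or_ge f rrL.length with hf | hf
  · rw [List.getD_eq_getElem _ _ hf]
    exact (h _ (List.getElem_mem hf)).trans hi
  · rw [List.getD_eq_default _ _ hf]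
    exact Nat.zero_le _

theorem mat_ext_big {f i q : ℕ} (hi : 7 ≤ i) (M N : Matrix (Fin (rr f i)) (Fin q) ℤ) :
    M = N := by
  ext a b
  exact absurd (a.isLt.trans_eq (rr_big f i hi)) (Nat.not_lt_zero _)

theorem c1 : ∀ f : Fin 8, 0 < f.val → ∀ i : Fin 7, ∀ j : Fin 4,
    ioM f (i + 1) * DM (Jf f) i j = DM f i j * ioM f i := by
  decide +kernel

theorem c2 : ∀ f : Fin 8, 0 < f.val → ∀ i : Fin 7, ∀ j : Fin 4,
    rhM f (i + 1) * DM (Cf f) i j = DM (Jf f) (i + 1) j * rhM f i := by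
  decide +kernel

theorem c3 : ∀ f : Fin 8, 0 < f.val → ∀ i : Fin 7, ioM f (i + 1) * rhM f i = 0 := by
  decide +kernel

theorem c4 : ∀ f : Fin 8, 0 < f.val → ∀ i : Fin 7, sgM f i * rhM f i = 1 := by
  decide +kernel

theorem c5 : ∀ f : Fin 8, 0 < f.val → ∀ i : Fin 7, ioM f i * ttM f i = 1 := by
  decide +kernel

theorem c6 : ∀ f : Fin 8, 0 < f.val → ∀ i : Fin 7,
    rhM f i * sgM f i + ttM f (i + 1) * ioM f (i + 1) = 1 := by
  decide +kernel

/-- the relation matrix -/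
def NN (j : Fin 4) : Matrix (Fin 7) (Fin 4) ℤ := mat 7 4 ((DD0.getD 1 []).getD j [])

/-- pivot letters -/
def pjF (r : Fin 7) : Fin 4 := Fin.ofNat 4 (pj.getD r 0)

/-- pivot letters -/
def plF (r : Fin 7) : Fin 4 := Fin.ofNat 4 (pl.getD r 0)

theorem c7 : ∀ i : Fin 7, ∀ j l : Fin 4,
    DM 0 (i + 1) j * DM 0 i l = ∑ r : Fin 7, NN j r l • (DM 0 (i + 1) (pjF r) * DM 0 i (plF r)) := by
  decide +kernel

theorem cJ : ∀ f : Fin 8, 0 < f.val → Jf f < f := by decide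

theorem cC : ∀ f : Fin 8, Cf f ≤ 7 := by decide

end Pool.Agent.H832Z.Kos
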