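import Mathlib

/-! Integer data of the Koszul filtration. -/

namespace Pool.Agent.H832Z.Kos

/-- ranks -/
def rrL : List (List ℕ) :=
  [[1, 4, 7, 8, 7, 4, 1], [1, 3, 4, 3, 1, 0, 0], [1, 3, 5, 6, 4, 1, 0], [1, 3, 4, 4, 3, 1, 0],
  [1, 2, 1, 0, 0, 0, 0], [1, 2, 2, 3, 3, 1, 0], [1, 1, 0, 0, 0, 0, 0], [1, 0, 0, 0, 0, 0, 0]]

/-- smaller member -/
def JfL : List ℕ :=
  [0, 0, 0, 0, 3, 3, 4, 6]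

/-- colon member -/
def CfL : List ℕ :=
  [0, 2, 5, 3, 1, 4, 6, 7]

/-- differentials -/
def DD0 : List (List (List (List ℤ))) :=
  [[[[1], [0], [0], [0]], [[0], [1], [0], [0]], [[0], [0], [1], [0]], [[0], [0], [0], [1]]],
  [[[0, 1, 0, 0], [0, 0, 0, 0], [0, 0, 0, 0], [0, 0, 0, 0], [0, 0, 0, 0], [0, 0, 0, 0], [0, 0,
  0, 0]], [[0, 0, 0, 0], [1, 1, 1, 0], [0, 0, 0, 1], [0, 0, 0, 0], [0, 0, 0, 0], [0, 0, 0, 0],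
  [0, 0, 0, 0]], [[0, 0, 0, 0], [0, 0, 0, -1], [0, 0, 0, 1], [1, 0, 0, 0], [0, 1, 0, 0], [0, 0,
  0, 0], [0, 0, 0, 0]], [[0, 0, 0, 0], [0, 0, 0, -1], [0, 0, 0, 1], [0, 0, 0, 0], [0, 0, 0, 0],
  [1, 0, 0, 0], [0, 0, 1, 0]]], [[[0, 1, 1, 0, 0, 0, 0], [0, 0, 0, 0, 0, 0, 0], [0, 0, 0, 0, 0,
  0, 0], [0, 0, 0, 0, 0, 0, 0], [0, 0, 0, 0, 0, 0, 0], [0, 0, 0, 0, 0, 0, 0], [0, 0, 0, 0, 0, 0,
  0], [0, 0, 0, 0, 0, 0, 0]], [[0, 0, 0, 0, 0, 0, 0], [0, 0, 0, 0, 0, 1, 0], [0, 0, 0, 0, 0, 0,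
  1], [0, 0, 0, 0, 0, 0, 0], [0, 0, 0, 0, 0, 0, 0], [0, 0, 0, 0, 0, 0, 0], [0, 0, 0, 0, 0, 0,
  0], [0, 0, 0, 0, 0, 0, 0]], [[0, 0, 0, 0, 0, 0, 0], [0, 0, 0, 0, 0, 1, 0], [0, 0, 0, 0, 0, 0,
  1], [1, 0, 0, 0, 0, 0, 0], [0, 1, 1, 0, 0, 0, 0], [0, 0, 0, 0, 0, 0, 0], [0, 0, 0, 0, 0, 0,
  0], [0, 0, 0, 0, 0, 0, 0]], [[0, 0, 0, 0, 0, 0, 0], [0, 0, 0, 0, 0, 1, 0], [0, 0, 0, 0, 0, 0,
  1], [0, 0, 0, 0, 0, 0, 0], [0, 0, 0, 0, 0, 0, 0], [1, 0, 0, 0, 0, 0, 0], [0, 0, 0, 1, 0, 0,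
  0], [0, 0, 0, 0, 1, 0, 0]]], [[[0, 0, 0, 0, 0, 0, 0, 0], [0, 0, 0, 0, 0, 0, 0, 0], [0, 0, 0,
  0, 0, 0, 0, 0], [0, 0, 0, 0, 0, 0, 0, 0], [0, 0, 0, 0, 0, 0, 0, 0], [0, 0, 0, 0, 0, 0, 0, 0],
  [0, 0, 0, 0, 0, 0, 0, 0]], [[0, 0, 0, 0, 0, 1, 0, 0], [0, 0, 0, 0, 0, 0, 1, 0], [0, 0, 0, 0,
  0, 0, 0, 1], [0, 0, 0, 0, 0, 0, 0, 0], [0, 0, 0, 0, 0, 0, 0, 0], [0, 0, 0, 0, 0, 0, 0, 0], [0,
  0, 0, 0, 0, 0, 0, 0]], [[0, 0, 0, 0, 0, 1, 0, 0], [0, 0, 0, 0, 0, 0, 1, 0], [0, 0, 0, 0, 0, 0,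
  0, 1], [1, 0, 0, 0, 0, 0, 0, 0], [0, 0, 0, 0, 0, 0, 0, 0], [0, 0, 0, 0, 0, 0, 0, 0], [0, 0, 0,
  0, 0, 0, 0, 0]], [[0, 0, 0, 0, 0, 1, 0, 0], [0, 0, 0, 0, 0, 0, 1, 0], [0, 0, 0, 0, 0, 0, 0,
  1], [0, 0, 0, 0, 0, 0, 0, 0], [1, 0, 0, 0, 0, 0, 0, 0], [0, 0, 0, 1, 0, 0, 0, 0], [0, 0, 0, 0,
  1, 0, 0, 0]]], [[[0, 0, 0, 0, 0, 0, 0], [0, 0, 0, 0, 0, 0, 0], [0, 0, 0, 0, 0, 0, 0], [0, 0,
  0, 0, 0, 0, 0]], [[0, 0, 0, 0, 1, 0, 0], [0, 0, 0, 0, 0, 1, 0], [0, 0, 0, 0, 0, 0, 1], [0, 0,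
  0, 0, 0, 0, 0]], [[0, 0, 0, 0, 1, 0, 0], [0, 0, 0, 0, 0, 1, 0], [0, 0, 0, 0, 0, 0, 1], [0, 0,
  0, 0, 0, 0, 0]], [[0, 0, 0, 0, 1, 0, 0], [0, 0, 0, 0, 0, 1, 0], [0, 0, 0, 0, 0, 0, 1], [0, 0,
  0, 1, 0, 0, 0]]], [[[0, 0, 0, 0]], [[0, 0, 0, 1]], [[0, 0, 0, 1]], [[0, 0, 0, 1]]]]

/-- differentials -/
def DD1 : List (List (List (List ℤ))) :=
  [[[[1], [0], [0]], [[0], [0], [0]], [[0], [1], [0]], [[0], [0], [1]]], [[[0, 0, 0], [0, 0, 0],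
  [0, 0, 0], [0, 0, 0]], [[0, 0, 1], [0, 0, 0], [0, 0, 0], [0, 0, 0]], [[0, 0, 1], [1, 0, 0],
  [0, 0, 0], [0, 0, 0]], [[0, 0, 1], [0, 0, 0], [1, 0, 0], [0, 1, 0]]], [[[0, 0, 0, 0], [0, 0,
  0, 0], [0, 0, 0, 0]], [[0, 0, 1, 0], [0, 0, 0, 1], [0, 0, 0, 0]], [[0, 0, 1, 0], [0, 0, 0, 1],
  [0, 0, 0, 0]], [[0, 0, 1, 0], [0, 0, 0, 1], [0, 1, 0, 0]]], [[[0, 0, 0]], [[0, 0, 1]], [[0, 0,
  1]], [[0, 0, 1]]], [[], [], [], []], [[], [], [], []]]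

/-- differentials -/
def DD2 : List (List (List (List ℤ))) :=
  [[[[1], [0], [0]], [[0], [1], [0]], [[0], [0], [1]], [[0], [0], [0]]], [[[0, 1, 0], [0, 0, 0],
  [0, 0, 0], [0, 0, 0], [0, 0, 0]], [[0, 0, 0], [0, 0, 0], [0, 0, 0], [0, 0, 0], [0, 0, 0]],
  [[0, 0, 0], [1, 0, 0], [0, 1, 0], [0, 0, 0], [0, 0, 0]], [[0, 0, 0], [0, 0, 0], [0, 0, 0], [1,
  0, 0], [0, 0, 1]]], [[[0, 0, 0, 0, 0], [0, 0, 0, 0, 0], [0, 0, 0, 0, 0], [0, 0, 0, 0, 0], [0,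
  0, 0, 0, 0], [0, 0, 0, 0, 0]], [[0, 0, 0, 1, 0], [0, 0, 0, 0, 1], [0, 0, 0, 0, 0], [0, 0, 0,
  0, 0], [0, 0, 0, 0, 0], [0, 0, 0, 0, 0]], [[0, 0, 0, 1, 0], [0, 0, 0, 0, 1], [1, 0, 0, 0, 0],
  [0, 0, 0, 0, 0], [0, 0, 0, 0, 0], [0, 0, 0, 0, 0]], [[0, 0, 0, 1, 0], [0, 0, 0, 0, 1], [0, 0,
  0, 0, 0], [1, 0, 0, 0, 0], [0, 1, 0, 0, 0], [0, 0, 1, 0, 0]]], [[[0, 0, 0, 0, 0, 0], [0, 0, 0,
  0, 0, 0], [0, 0, 0, 0, 0, 0], [0, 0, 0, 0, 0, 0]], [[0, 0, 0, 1, 0, 0], [0, 0, 0, 0, 1, 0],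
  [0, 0, 0, 0, 0, 1], [0, 0, 0, 0, 0, 0]], [[0, 0, 0, 1, 0, 0], [0, 0, 0, 0, 1, 0], [0, 0, 0, 0,
  0, 1], [0, 0, 0, 0, 0, 0]], [[0, 0, 0, 1, 0, 0], [0, 0, 0, 0, 1, 0], [0, 0, 0, 0, 0, 1], [0,
  0, 1, 0, 0, 0]]], [[[0, 0, 0, 0]], [[0, 0, 0, 1]], [[0, 0, 0, 1]], [[0, 0, 0, 1]]], [[], [],
  [], []]]

/-- differentials -/
def DD3 : List (List (List (List ℤ))) :=
  [[[[0], [0], [0]], [[1], [0], [0]], [[0], [1], [0]], [[0], [0], [1]]], [[[1, 0, 0], [0, 0, 0],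
  [0, 0, 0], [0, 0, 0]], [[0, 0, 0], [0, 0, 1], [0, 0, 0], [0, 0, 0]], [[0, 0, 0], [0, 0, 1],
  [1, 0, 0], [0, 0, 0]], [[0, 0, 0], [0, 0, 1], [0, 0, 0], [0, 1, 0]]], [[[0, 0, 0, 0], [0, 0,
  0, 0], [0, 0, 0, 0], [0, 0, 0, 0]], [[0, 0, 0, 1], [0, 0, 0, 0], [0, 0, 0, 0], [0, 0, 0, 0]],
  [[0, 0, 0, 1], [1, 0, 0, 0], [0, 0, 0, 0], [0, 0, 0, 0]], [[0, 0, 0, 1], [0, 0, 0, 0], [1, 0,
  0, 0], [0, 0, 1, 0]]], [[[0, 0, 0, 0], [0, 0, 0, 0], [0, 0, 0, 0]], [[0, 0, 1, 0], [0, 0, 0,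
  1], [0, 0, 0, 0]], [[0, 0, 1, 0], [0, 0, 0, 1], [0, 0, 0, 0]], [[0, 0, 1, 0], [0, 0, 0, 1],
  [0, 1, 0, 0]]], [[[0, 0, 0]], [[0, 0, 1]], [[0, 0, 1]], [[0, 0, 1]]], [[], [], [], []]]

/-- differentials -/
def DD4 : List (List (List (List ℤ))) :=
  [[[[0], [0]], [[1], [0]], [[1], [0]], [[0], [1]]], [[[0, 0]], [[0, 1]], [[0, 1]], [[0, 1]]],
  [[], [], [], []], [[], [], [], []], [[], [], [], []], [[], [], [], []]]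

/-- differentials -/
def DD5 : List (List (List (List ℤ))) :=
  [[[[0], [0]], [[1], [0]], [[0], [1]], [[0], [1]]], [[[1, 0], [0, 0]], [[0, 0], [0, 0]], [[0,
  0], [1, 0]], [[0, 0], [0, 0]]], [[[0, 0], [0, 0], [0, 0]], [[0, 0], [0, 0], [0, 0]], [[1, 0],
  [0, 0], [0, 0]], [[0, 0], [1, 0], [0, 1]]], [[[0, 0, 0], [0, 0, 0], [0, 0, 0]], [[0, 1, 0],
  [0, 0, 1], [0, 0, 0]], [[0, 1, 0], [0, 0, 1], [0, 0, 0]], [[0, 1, 0], [0, 0, 1], [1, 0, 0]]],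
  [[[0, 0, 0]], [[0, 0, 1]], [[0, 0, 1]], [[0, 0, 1]]], [[], [], [], []]]

/-- differentials -/
def DD6 : List (List (List (List ℤ))) :=
  [[[[0]], [[1]], [[1]], [[1]]], [[], [], [], []], [[], [], [], []], [[], [], [], []], [[], [],
  [], []], [[], [], [], []]]

/-- differentials -/
def DD7 : List (List (List (List ℤ))) :=
  [[[], [], [], []], [[], [], [], []], [[], [], [], []], [[], [], [], []], [[], [], [], []],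
  [[], [], [], []]]

/-- differentials -/
def DDL : List (List (List (List (List ℤ)))) :=
  [DD0, DD1, DD2, DD3, DD4, DD5, DD6, DD7]

/-- inclusions -/
def io0 : List (List (List ℤ)) :=
  []

/-- inclusions -/
def io1 : List (List (List ℤ)) :=
  [[[1]], [[1, 0, 0, 0], [0, 0, 1, 0], [0, 0, 0, 1]], [[0, 0, 1, 0, 0, 0, 0], [0, 0, 0, 1, 0, 0,
  0], [0, 0, 0, 0, 0, 1, 0], [0, 0, 0, 0, 0, 0, 1]], [[0, 1, 0, 0, 0, 0, 0, 0], [0, 0, 1, 0, 0,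
  0, 0, 0], [0, 0, 0, 0, 0, 0, 1, 0]], [[0, 1, 0, 0, 0, 0, 0]], [], []]

/-- inclusions -/
def io2 : List (List (List ℤ)) :=
  [[[1]], [[1, 0, 0, 0], [0, 1, 0, 0], [0, 0, 1, 0]], [[1, 0, 0, 0, 0, 0, 0], [0, 0, 0, 1, 0, 0,
  0], [0, 0, 0, 0, 1, 0, 0], [0, 0, 0, 0, 0, 1, 0], [0, 0, 0, 0, 0, 0, 1]], [[0, 1, 0, 0, 0, 0,
  0, 0], [0, 0, 1, 0, 0, 0, 0, 0], [0, 0, 0, 1, 0, 0, 0, 0], [0, 0, 0, 0, 0, 1, 0, 0], [0, 0, 0,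
  0, 0, 0, 1, 0], [0, 0, 0, 0, 0, 0, 0, 1]], [[1, 0, 0, 0, 0, 0, 0], [0, 1, 0, 0, 0, 0, 0], [0,
  0, 1, 0, 0, 0, 0], [0, 0, 0, 0, 0, 1, 0]], [[0, 1, 0, 0]], []]

/-- inclusions -/
def io3 : List (List (List ℤ)) :=
  [[[1]], [[0, 1, 0, 0], [0, 0, 1, 0], [0, 0, 0, 1]], [[1, 0, 0, 0, 0, 0, 0], [0, 0, 1, 0, 0, 0,
  0], [0, 0, 0, 0, 1, 0, 0], [0, 0, 0, 0, 0, 0, 1]], [[0, 0, 1, 0, 0, 0, 0, 0], [0, 0, 0, 1, 0,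
  0, 0, 0], [0, 0, 0, 0, 0, 1, 0, 0], [0, 0, 0, 0, 0, 0, 0, 1]], [[1, 0, 0, 0, 0, 0, 0], [0, 0,
  1, 0, 0, 0, 0], [0, 0, 0, 0, 0, 1, 0]], [[0, 1, 0, 0]], []]

/-- inclusions -/
def io4 : List (List (List ℤ)) :=
  [[[1]], [[1, 1, 0], [0, 0, 1]], [[0, 1, 0, 0]], [], [], [], []]

/-- inclusions -/
def io5 : List (List (List ℤ)) :=
  [[[1]], [[1, 0, 0], [0, 1, 1]], [[1, 0, 0, 0], [0, 0, 1, 0]], [[0, 1, 0, 0], [0, 0, 1, 0], [0,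
  0, 0, 1]], [[1, 0, 0], [0, 1, 0], [0, 0, 1]], [[1]], []]

/-- inclusions -/
def io6 : List (List (List ℤ)) :=
  [[[1]], [[1, 1]], [], [], [], [], []]

/-- inclusions -/
def io7 : List (List (List ℤ)) :=
  [[[1]], [], [], [], [], [], []]

/-- inclusions -/
def ioL : List (List (List (List ℤ))) :=
  [io0, io1, io2, io3, io4, io5, io6, io7]

/-- retractions -/
def tt0 : List (List (List ℤ)) :=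
  []

/-- retractions -/
def tt1 : List (List (List ℤ)) :=
  [[[1]], [[1, 0, 0], [0, 0, 0], [0, 1, 0], [0, 0, 1]], [[0, 0, 0, 0], [0, 0, 0, 0], [1, 0, 0,
  0], [0, 1, 0, 0], [0, 0, 0, 0], [0, 0, 1, 0], [0, 0, 0, 1]], [[0, 0, 0], [1, 0, 0], [0, 1, 0],
  [0, 0, 0], [0, 0, 0], [0, 0, 0], [0, 0, 1], [0, 0, 0]], [[0], [1], [0], [0], [0], [0], [0]],
  [[], [], [], []], [[]]]

/-- retractions -/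
def tt2 : List (List (List ℤ)) :=
  [[[1]], [[1, 0, 0], [0, 1, 0], [0, 0, 1], [0, 0, 0]], [[1, 0, 0, 0, 0], [0, 0, 0, 0, 0], [0,
  0, 0, 0, 0], [0, 1, 0, 0, 0], [0, 0, 1, 0, 0], [0, 0, 0, 1, 0], [0, 0, 0, 0, 1]], [[0, 0, 0,
  0, 0, 0], [1, 0, 0, 0, 0, 0], [0, 1, 0, 0, 0, 0], [0, 0, 1, 0, 0, 0], [0, 0, 0, 0, 0, 0], [0,
  0, 0, 1, 0, 0], [0, 0, 0, 0, 1, 0], [0, 0, 0, 0, 0, 1]], [[1, 0, 0, 0], [0, 1, 0, 0], [0, 0,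
  1, 0], [0, 0, 0, 0], [0, 0, 0, 0], [0, 0, 0, 1], [0, 0, 0, 0]], [[0], [1], [0], [0]], [[]]]

/-- retractions -/
def tt3 : List (List (List ℤ)) :=
  [[[1]], [[0, 0, 0], [1, 0, 0], [0, 1, 0], [0, 0, 1]], [[1, 0, 0, 0], [0, 0, 0, 0], [0, 1, 0,
  0], [0, 0, 0, 0], [0, 0, 1, 0], [0, 0, 0, 0], [0, 0, 0, 1]], [[0, 0, 0, 0], [0, 0, 0, 0], [1,
  0, 0, 0], [0, 1, 0, 0], [0, 0, 0, 0], [0, 0, 1, 0], [0, 0, 0, 0], [0, 0, 0, 1]], [[1, 0, 0],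
  [0, 0, 0], [0, 1, 0], [0, 0, 0], [0, 0, 0], [0, 0, 1], [0, 0, 0]], [[0], [1], [0], [0]], [[]]]

/-- retractions -/
def tt4 : List (List (List ℤ)) :=
  [[[1]], [[1, 0], [0, 0], [0, 1]], [[0], [1], [0], [0]], [[], [], [], []], [[], [], []], [[]],
  []]

/-- retractions -/
def tt5 : List (List (List ℤ)) :=
  [[[1]], [[1, 0], [0, 1], [0, 0]], [[1, 0], [0, 0], [0, 1], [0, 0]], [[0, 0, 0], [1, 0, 0], [0,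
  1, 0], [0, 0, 1]], [[1, 0, 0], [0, 1, 0], [0, 0, 1]], [[1]], []]

/-- retractions -/
def tt6 : List (List (List ℤ)) :=
  [[[1]], [[1], [0]], [[]], [], [], [], []]

/-- retractions -/
def tt7 : List (List (List ℤ)) :=
  [[[1]], [[]], [], [], [], [], []]

/-- retractions -/
def ttL : List (List (List (List ℤ))) :=
  [tt0, tt1, tt2, tt3, tt4, tt5, tt6, tt7]

/-- projections -/
def rh0 : List (List (List ℤ)) :=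
  []

/-- projections -/
def rh1 : List (List (List ℤ)) :=
  [[[0], [1], [0], [0]], [[1, 0, 0], [0, 1, 0], [0, 0, 0], [0, 0, 0], [0, 0, 1], [0, 0, 0], [0,
  0, 0]], [[1, 0, 0, 0, 0], [0, 0, 0, 0, 0], [0, 0, 0, 0, 0], [0, 1, 0, 0, 0], [0, 0, 1, 0, 0],
  [0, 0, 0, 1, 0], [0, 0, 0, 0, 0], [0, 0, 0, 0, 1]], [[1, 0, 0, 0, 0, 0], [0, 0, 0, 0, 0, 0],
  [0, 1, 0, 0, 0, 0], [0, 0, 1, 0, 0, 0], [0, 0, 0, 1, 0, 0], [0, 0, 0, 0, 1, 0], [0, 0, 0, 0,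
  0, 1]], [[1, 0, 0, 0], [0, 1, 0, 0], [0, 0, 1, 0], [0, 0, 0, 1]], [[1]]]

/-- projections -/
def rh2 : List (List (List ℤ)) :=
  [[[0], [0], [0], [1]], [[0, 0], [0, -1], [1, 1], [0, 0], [0, 0], [0, 0], [0, 0]], [[1, 0], [0,
  0], [0, 0], [0, 0], [0, 1], [0, 0], [0, 0], [0, 0]], [[0, 0, 0], [0, 0, 0], [0, 0, 0], [1, 0,
  0], [0, 1, 0], [0, 0, 0], [0, 0, 1]], [[1, 0, 0], [0, 0, 0], [0, 1, 0], [0, 0, 1]], [[1]]]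

/-- projections -/
def rh3 : List (List (List ℤ)) :=
  [[[1], [0], [0], [0]], [[0, 0, 0], [1, 0, 0], [0, 0, 0], [0, 1, 0], [0, 0, 0], [0, 0, 1], [0,
  0, 0]], [[1, 0, 0, 0], [0, 1, 0, 0], [0, 0, 0, 0], [0, 0, 0, 0], [0, 0, 1, 0], [0, 0, 0, 0],
  [0, 0, 0, 1], [0, 0, 0, 0]], [[0, 0, 0, 0], [1, 0, 0, 0], [0, 0, 0, 0], [0, 1, 0, 0], [0, 0,
  1, 0], [0, 0, 0, 0], [0, 0, 0, 1]], [[1, 0, 0], [0, 0, 0], [0, 1, 0], [0, 0, 1]], [[1]]]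

/-- projections -/
def rh4 : List (List (List ℤ)) :=
  [[[1], [-1], [0]], [[1, 0, 0], [0, 0, 0], [0, 1, 0], [0, 0, -1]], [[-1, 0, 0, 0], [0, 1, 0,
  0], [0, 0, 1, 0], [0, 0, 0, 1]], [[1, 0, 0], [0, 1, 0], [0, 0, 1]], [[1]], []]

/-- projections -/
def rh5 : List (List (List ℤ)) :=
  [[[0], [1], [-1]], [[0, 0], [-1, -1], [0, 0], [0, 1]], [[1], [0], [0], [0]], [[], [], []],
  [[]], []]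

/-- projections -/
def rh6 : List (List (List ℤ)) :=
  [[[1], [-1]], [[-1]], [], [], [], []]

/-- projections -/
def rh7 : List (List (List ℤ)) :=
  [[[1]], [], [], [], [], []]

/-- projections -/
def rhL : List (List (List (List ℤ))) :=
  [rh0, rh1, rh2, rh3, rh4, rh5, rh6, rh7]

/-- sections -/
def sg0 : List (List (List ℤ)) :=
  []

/-- sections -/
def sg1 : List (List (List ℤ)) :=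
  [[[0, 1, 0, 0]], [[1, 0, 0, 0, 0, 0, 0], [0, 1, 0, 0, 0, 0, 0], [0, 0, 0, 0, 1, 0, 0]], [[1,
  0, 0, 0, 0, 0, 0, 0], [0, 0, 0, 1, 0, 0, 0, 0], [0, 0, 0, 0, 1, 0, 0, 0], [0, 0, 0, 0, 0, 1,
  0, 0], [0, 0, 0, 0, 0, 0, 0, 1]], [[1, 0, 0, 0, 0, 0, 0], [0, 0, 1, 0, 0, 0, 0], [0, 0, 0, 1,
  0, 0, 0], [0, 0, 0, 0, 1, 0, 0], [0, 0, 0, 0, 0, 1, 0], [0, 0, 0, 0, 0, 0, 1]], [[1, 0, 0, 0],
  [0, 1, 0, 0], [0, 0, 1, 0], [0, 0, 0, 1]], [[1]]]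

/-- sections -/
def sg2 : List (List (List ℤ)) :=
  [[[0, 0, 0, 1]], [[0, 1, 1, 0, 0, 0, 0], [0, -1, 0, 0, 0, 0, 0]], [[1, 0, 0, 0, 0, 0, 0, 0],
  [0, 0, 0, 0, 1, 0, 0, 0]], [[0, 0, 0, 1, 0, 0, 0], [0, 0, 0, 0, 1, 0, 0], [0, 0, 0, 0, 0, 0,
  1]], [[1, 0, 0, 0], [0, 0, 1, 0], [0, 0, 0, 1]], [[1]]]

/-- sections -/
def sg3 : List (List (List ℤ)) :=
  [[[1, 0, 0, 0]], [[0, 1, 0, 0, 0, 0, 0], [0, 0, 0, 1, 0, 0, 0], [0, 0, 0, 0, 0, 1, 0]], [[1,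
  0, 0, 0, 0, 0, 0, 0], [0, 1, 0, 0, 0, 0, 0, 0], [0, 0, 0, 0, 1, 0, 0, 0], [0, 0, 0, 0, 0, 0,
  1, 0]], [[0, 1, 0, 0, 0, 0, 0], [0, 0, 0, 1, 0, 0, 0], [0, 0, 0, 0, 1, 0, 0], [0, 0, 0, 0, 0,
  0, 1]], [[1, 0, 0, 0], [0, 0, 1, 0], [0, 0, 0, 1]], [[1]]]

/-- sections -/
def sg4 : List (List (List ℤ)) :=
  [[[0, -1, 0]], [[1, 0, 0, 0], [0, 0, 1, 0], [0, 0, 0, -1]], [[-1, 0, 0, 0], [0, 1, 0, 0], [0,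
  0, 1, 0], [0, 0, 0, 1]], [[1, 0, 0], [0, 1, 0], [0, 0, 1]], [[1]], []]

/-- sections -/
def sg5 : List (List (List ℤ)) :=
  [[[0, 0, -1]], [[0, -1, 0, -1], [0, 0, 0, 1]], [[1, 0, 0, 0]], [], [], []]

/-- sections -/
def sg6 : List (List (List ℤ)) :=
  [[[0, -1]], [[-1]], [], [], [], []]

/-- sections -/
def sg7 : List (List (List ℤ)) :=
  [[[1]], [], [], [], [], []]

/-- sections -/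
def sgL : List (List (List (List ℤ))) :=
  [sg0, sg1, sg2, sg3, sg4, sg5, sg6, sg7]

/-- pivot first letters -/
def pj : List ℕ :=
  [0, 1, 1, 2, 2, 3, 3]

/-- pivot second letters -/
def pl : List ℕ :=
  [1, 0, 3, 0, 1, 0, 2]

end Pool.Agent.H832Z.Kos
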