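import Mathlib

/-! Quadratic algebras, Koszul algebras and their Betti numbers. -/

namespace Pool.Agent.H832Z.Kos

open TensorProduct Matrix

universe u

variable {k : Type u} [Field k] {V : Type u} [AddCommGroup V] [Module k V]

/-- The inclusion of `V ⊗ V` as the degree two part of the tensor algebra `T(V)`:
`v ⊗ w ↦ v w`. -/
noncomputable def degTwo : V ⊗[k] V →ₗ[k] TensorAlgebra k V :=
  TensorProduct.lift
    ((LinearMap.mul k (TensorAlgebra k V)).compl₁₂ (TensorAlgebra.ι k) (TensorAlgebra.ι k))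

/-- The relation `r ∼ 0` for `r ∈ R ⊆ V ⊗ V`. -/
def QuadRel (R : Submodule k (V ⊗[k] V)) (x y : TensorAlgebra k V) : Prop :=
  ∃ r ∈ R, x = degTwo r ∧ y = 0

/-- The quadratic algebra `A = T(V)/(R)`. -/
abbrev QuadAlg (R : Submodule k (V ⊗[k] V)) : Type u := RingQuot (QuadRel R)

/-- The map `V → A` onto the degree one part `A₁`. -/
noncomputable def gen (R : Submodule k (V ⊗[k] V)) : V →ₗ[k] QuadAlg R :=
  (RingQuot.mkAlgHom k (QuadRel R)).toLinearMap ∘ₗ TensorAlgebra.ι k

theorem algebraMapInv_degTwo (r : V ⊗[k] V) :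
    TensorAlgebra.algebraMapInv (degTwo r : TensorAlgebra k V) = 0 := by
  induction r with
  | zero => simp
  | tmul v w => simp [degTwo, TensorAlgebra.algebraMapInv]
  | add a b ha hb => simp [ha, hb]

/-- The augmentation `A → k`, the algebra map killing `V`. -/
noncomputable def aug (R : Submodule k (V ⊗[k] V)) : QuadAlg R →ₐ[k] k :=
  RingQuot.liftAlgHom k ⟨TensorAlgebra.algebraMapInv, by
    rintro x y ⟨r, -, rfl, rfl⟩
    rw [algebraMapInv_degTwo, map_zero]⟩

/-- The trivial left `A`-module `k`: `A` acts through the augmentation. -/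
noncomputable def triv (R : Submodule k (V ⊗[k] V)) : ModuleCat.{u} (QuadAlg R) :=
  (ModuleCat.restrictScalars (aug R).toRingHom).obj (ModuleCat.of k k)

/-- `A = T(V)/(R)` is Koszul: the trivial left module `k` has a linear free resolution
`⋯ → A^(r 2) → A^(r 1) → A^(r 0) = A → k → 0`, the last map being the augmentation and the
differentials `v ↦ v D i` (row vector times matrix) having all matrix entries in `A₁`. -/
def IsKoszul (R : Submodule k (V ⊗[k] V)) : Prop :=
  ∃ (r : ℕ → ℕ) (D : ∀ i, Matrix (Fin (r (i + 1))) (Fin (r i)) (QuadAlg R)),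
    r 0 = 1 ∧
    (∀ i a b, D i a b ∈ LinearMap.range (gen R)) ∧
    (∀ i, Function.Exact (fun v => v ᵥ* D (i + 1)) (fun v => v ᵥ* D i)) ∧
    Function.Exact (fun v => v ᵥ* D 0) (fun v : Fin (r 0) → QuadAlg R => ∑ a, aug R (v a))

/-- The Betti number `b_i(A) = dim_k Ext^i_A(k, k)`. -/
noncomputable def betti (R : Submodule k (V ⊗[k] V)) (i : ℕ) : Cardinal.{u} :=
  Module.rank k
    (((_root_.Ext k (ModuleCat.{u} (QuadAlg R)) i).obj (Opposite.op (triv R))).obj (triv R))

end Pool.Agent.H832Z.Kos
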