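import Pool.Agent.H832Z.KosDefs

/-! The Betti numbers are the ranks of a linear free resolution. -/

namespace Pool.Agent.H832Z.Kos

open TensorProduct Matrix CategoryTheory

universe u

variable {k : Type u} [Field k] {V : Type u} [AddCommGroup V] [Module k V]

theorem aug_mk (R : Submodule k (V ⊗[k] V)) (x : TensorAlgebra k V) :
    aug R (RingQuot.mkAlgHom k (QuadRel R) x) = TensorAlgebra.algebraMapInv x := by
  unfold aug
  rw [RingQuot.liftAlgHom_mkAlgHom_apply]

theorem aug_gen (R : Submodule k (V ⊗[k] V)) (v : V) : aug R (gen R v) = 0 := by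
  have : gen R v = RingQuot.mkAlgHom k (QuadRel R) (TensorAlgebra.ι k v) := rfl
  rw [this, aug_mk]
  simp [TensorAlgebra.algebraMapInv]

/-- identification of the carrier of the trivial module with `k`. -/
def toK (R : Submodule k (V ⊗[k] V)) (x : triv R) : k := x

/-- identification of the carrier of the trivial module with `k`. -/
def ofK (R : Submodule k (V ⊗[k] V)) (x : k) : triv R := x

theorem toK_smul (R : Submodule k (V ⊗[k] V)) (a : QuadAlg R) (x : triv R) :
    toK R (a • x) = aug R a * toK R x := rfl

theorem toK_add (R : Submodule k (V ⊗[k] V)) (x y : triv R) :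
    toK R (x + y) = toK R x + toK R y := rfl

theorem toK_zero (R : Submodule k (V ⊗[k] V)) : toK R 0 = 0 := rfl

theorem toK_ofK (R : Submodule k (V ⊗[k] V)) (x : k) : toK R (ofK R x) = x := rfl

theorem toK_inj (R : Submodule k (V ⊗[k] V)) {x y : triv R} (h : toK R x = toK R y) : x = y := h

/-- additive version of `toK`. -/
def toKa (R : Submodule k (V ⊗[k] V)) : triv R →+ k where
  toFun := toK R
  map_zero' := rfl
  map_add' _ _ := rfl

/-- The map `A^n → k`, `v ↦ ∑ aug (v a) c a`. -/
noncomputable def pairK (R : Submodule k (V ⊗[k] V)) {n : ℕ} (c : Fin n → k) :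
    (Fin n → QuadAlg R) →ₗ[QuadAlg R] triv R where
  toFun v := ofK R (∑ a, aug R (v a) * c a)
  map_add' v w := by
    apply toK_inj R
    rw [toK_add]
    simp [toK_ofK, add_mul, Finset.sum_add_distrib]
  map_smul' a v := by
    apply toK_inj R
    rw [RingHom.id_apply, toK_smul]
    simp [toK_ofK, Finset.mul_sum, mul_assoc]

theorem toK_pairK (R : Submodule k (V ⊗[k] V)) {n : ℕ} (c : Fin n → k) (v : Fin n → QuadAlg R) :
    toK R (pairK R c v) = ∑ a, aug R (v a) * c a := rfl

theorem toK_hom (R : Submodule k (V ⊗[k] V)) {n : ℕ}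
    (f : (Fin n → QuadAlg R) →ₗ[QuadAlg R] triv R) (v : Fin n → QuadAlg R) :
    toK R (f v) = ∑ a, aug R (v a) * toK R (f (Pi.single a 1)) := by
  have hv : v = ∑ a, v a • (Pi.single a 1 : Fin n → QuadAlg R) := by
    ext b
    simp [Finset.sum_apply, Pi.single_apply]
  conv_lhs => rw [hv, map_sum]
  refine (map_sum (toKa R) (fun x => f (v x • Pi.single x 1)) Finset.univ).trans ?_
  refine Finset.sum_congr rfl fun a _ => ?_
  rw [map_smul]
  rfl

/-- `pairK` as a morphism of the module category. -/
noncomputable def pairH (R : Submodule k (V ⊗[k] V)) {n : ℕ} (c : Fin n → k) :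
    ModuleCat.of (QuadAlg R) (Fin n → QuadAlg R) ⟶ triv R :=
  (ModuleCat.ofHom (X := Fin n → QuadAlg R) (Y := triv R) (pairK R c) :)

theorem pairH_hom (R : Submodule k (V ⊗[k] V)) {n : ℕ} (c : Fin n → k) :
    (pairH R c).hom = pairK R c := rfl

/-- `Hom_A(A^n, k) ≃ k^n`. -/
noncomputable def homEquivK (R : Submodule k (V ⊗[k] V)) (n : ℕ) :
    (ModuleCat.of (QuadAlg R) (Fin n → QuadAlg R) ⟶ triv R) ≃ₗ[k] (Fin n → k) where
  toFun f a := toK R (f.hom (Pi.single a 1))
  invFun c := pairH R c
  map_add' f g := by
    ext a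
    rfl
  map_smul' c f := by
    ext a
    change toK R (algebraMap k (QuadAlg R) c • f.hom (Pi.single a 1)) = _
    rw [toK_smul]
    simp
  left_inv f := by
    ext1
    apply LinearMap.ext
    intro v
    apply toK_inj R
    change toK R (pairK R _ v) = _
    rw [toK_pairK, toK_hom]
  right_inv c := by
    ext a
    change toK R (pairK R c _) = _
    rw [toK_pairK]
    simp [Pi.single_apply, apply_ite (aug R)]

section Res

variable (R : Submodule k (V ⊗[k] V)) (r : ℕ → ℕ)
  (D : ∀ i, Matrix (Fin (r (i + 1))) (Fin (r i)) (QuadAlg R))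

/-- The chain complex of a linear resolution. -/
noncomputable abbrev resCx
    (hex : ∀ i, Function.Exact (fun v => v ᵥ* D (i + 1)) (fun v => v ᵥ* D i)) :
    ChainComplex (ModuleCat.{u} (QuadAlg R)) ℕ :=
  ChainComplex.of (fun i => ModuleCat.of (QuadAlg R) (Fin (r i) → QuadAlg R))
    (fun i => ModuleCat.ofHom (D i).vecMulLinear)
    (fun i => by
      ext1
      apply LinearMap.ext
      intro v
      exact (hex i).apply_apply_eq_zero v)

variable (hex : ∀ i, Function.Exact (fun v => v ᵥ* D (i + 1)) (fun v => v ᵥ* D i))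
  (h0 : Function.Exact (fun v => v ᵥ* D 0) (fun v : Fin (r 0) → QuadAlg R => ∑ a, aug R (v a)))

theorem resCx_d (i : ℕ) :
    (resCx R r D hex).d (i + 1) i = ModuleCat.ofHom (D i).vecMulLinear :=
  ChainComplex.of_d (fun i => ModuleCat.of (QuadAlg R) (Fin (r i) → QuadAlg R))
    (fun i => ModuleCat.ofHom (D i).vecMulLinear) i

/-- The augmentation of the complex. -/
noncomputable def resPi : resCx R r D hex ⟶ (ChainComplex.single₀ _).obj (triv R) :=
  (ChainComplex.toSingle₀Equiv _ _).symm ⟨pairH R fun _ => 1, by
    rw [resCx_d]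
    ext1
    apply LinearMap.ext
    intro v
    apply toK_inj R
    change toK R (pairK R _ (v ᵥ* D 0)) = 0
    rw [toK_pairK]
    simpa using h0.apply_apply_eq_zero v⟩

theorem resPi_f : (resPi R r D hex h0).f 0 = pairH R fun _ => 1 := by
  unfold resPi
  exact ChainComplex.toSingle₀Equiv_symm_apply_f_zero _ _

theorem res_quasiIso (hr : r 0 = 1) : QuasiIso (resPi R r D hex h0) where
  quasiIsoAt m := by
    induction m with
    | zero =>
      rw [ChainComplex.quasiIsoAt₀_iff, ShortComplex.quasiIso_iff_of_zeros' _ rfl rfl rfl]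
      constructor
      · rw [ShortComplex.moduleCat_exact_iff]
        intro x hx
        have hx' : (resPi R r D hex h0).f 0 x = 0 := hx
        rw [resPi_f] at hx'
        have h1 : toK R (pairK R (fun _ => 1) x) = 0 := congrArg (toK R) hx'
        rw [toK_pairK] at h1
        obtain ⟨y, hy⟩ := (h0 x).1 (by simpa using h1)
        refine ⟨y, ?_⟩
        change (resCx R r D hex).d (0 + 1) 0 y = x
        rw [resCx_d]
        exact hy
      · change Epi ((resPi R r D hex h0).f 0)
        rw [resPi_f, ModuleCat.epi_iff_surjective]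
        intro x
        refine ⟨fun _ => algebraMap k _ (toK R x), ?_⟩
        apply toK_inj R
        change toK R (pairK R _ _) = _
        rw [toK_pairK]
        simp [hr]
    | succ m _ =>
      rw [quasiIsoAt_iff_exactAt' (hL := ChainComplex.exactAt_succ_single_obj ..),
          HomologicalComplex.exactAt_iff' _ (m + 2) (m + 1) m (by simp) (by simp),
          ShortComplex.moduleCat_exact_iff]
      intro x hx
      have hx' : (resCx R r D hex).d (m + 1) m x = 0 := hx
      rw [resCx_d] at hx'
      obtain ⟨y, hy⟩ := (hex m x).1 hx'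
      refine ⟨y, ?_⟩
      change (resCx R r D hex).d (m + 1 + 1) (m + 1) y = x
      rw [resCx_d]
      exact hy

/-- The projective resolution of the trivial module. -/
noncomputable def resol (hr : r 0 = 1) : ProjectiveResolution (triv R) where
  complex := resCx R r D hex
  projective i := by
    change Projective (ModuleCat.of (QuadAlg R) (Fin (r i) → QuadAlg R))
    infer_instance
  π := resPi R r D hex h0
  quasiIso := res_quasiIso R r D hex h0 hr

include hex in
theorem d_comp_zero (hD : ∀ i a b, D i a b ∈ LinearMap.range (gen R)) (i j : ℕ)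
    (f : (resCx R r D hex).X j ⟶ triv R) : (resCx R r D hex).d i j ≫ f = 0 := by
  by_cases h : i = j + 1
  · subst h
    rw [resCx_d]
    ext1
    apply LinearMap.ext
    intro v
    apply toK_inj R
    change toK R (f.hom (v ᵥ* D j)) = 0
    rw [toK_hom]
    refine Finset.sum_eq_zero fun a _ => ?_
    have : aug R ((v ᵥ* D j) a) = 0 := by
      simp only [vecMul, dotProduct, map_sum, map_mul]
      refine Finset.sum_eq_zero fun b _ => ?_
      obtain ⟨w, hw⟩ := hD j b a
      rw [← hw, aug_gen, mul_zero]
    rw [this, zero_mul]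
  · rw [(resCx R r D hex).shape i j (by simpa using fun h' => h h'.symm), Limits.zero_comp]

include hex h0 in
theorem betti_eq (hr : r 0 = 1) (hD : ∀ i a b, D i a b ∈ LinearMap.range (gen R)) (i : ℕ) :
    betti R i = r i := by
  have e1 := (resol R r D hex h0 hr).isoExt (R := k) i (triv R)
  have hz : ∀ a b, ((resol R r D hex h0 hr).complex.linearYonedaObj k (triv R)).d a b = 0 := by
    intro a b
    rw [ChainComplex.linearYonedaObj_d]
    ext1
    apply LinearMap.ext
    intro f
    exact d_comp_zero R r D hex hD b a f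
  have e2 := (ShortComplex.HomologyData.ofZeros
    (((resol R r D hex h0 hr).complex.linearYonedaObj k (triv R)).sc i) (hz _ _)
      (hz _ _)).left.homologyIso
  have e3 := (e1 ≪≫ e2).toLinearEquiv
  unfold betti
  rw [e3.rank_eq]
  have e4 := (homEquivK R (r i)).rank_eq
  rw [rank_fin_fun] at e4
  exact e4

end Res

end Pool.Agent.H832Z.Kos
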