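import Pool.Agent.H832Z.KosAlg

/-! Exactness of `A ⊗ R → A ⊗ V → A → k`. -/

namespace Pool.Agent.H832Z.Kos

open TensorProduct Matrix

universe u

variable (k : Type u) [Field k] {m p : ℕ} (N : Fin m → Matrix (Fin p) (Fin m) ℤ)

/-- the relations with integer coefficients `N j r l` -/
noncomputable def relT (r : Fin p) : (Fin m → k) ⊗[k] (Fin m → k) :=
  ∑ j, ∑ l, N j r l • ((Pi.single j 1 : Fin m → k) ⊗ₜ[k] (Pi.single l 1 : Fin m → k))

/-- the space of relations -/
noncomputable def relS : Submodule k ((Fin m → k) ⊗[k] (Fin m → k)) :=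
  Submodule.span k (Set.range (relT k N))

/-- the generators -/
noncomputable def xx (j : Fin m) : QuadAlg (relS k N) := gen (relS k N) (Pi.single j 1)

theorem gen_sum (v : Fin m → k) : gen (relS k N) v = ∑ j, v j • xx k N j := by
  have hv : v = ∑ j, v j • (Pi.single j 1 : Fin m → k) := by
    ext b
    simp [Finset.sum_apply, Pi.single_apply]
  conv_lhs => rw [hv, map_sum]
  simp only [map_smul, xx]

theorem rel_zero (r : Fin p) : ∑ j, ∑ l, N j r l • (xx k N j * xx k N l) = 0 := by
  have h := mk_degTwo (relS k N) (r := relT k N r) (Submodule.subset_span ⟨r, rfl⟩)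
  simp only [relT, map_sum, map_zsmul, degTwo_tmul, map_mul] at h
  exact h

theorem aug_decomp (a : QuadAlg (relS k N)) :
    ∃ z : Fin m → QuadAlg (relS k N),
      a = algebraMap k _ (aug (relS k N) a) + ∑ l, z l * xx k N l := by
  induction a using alg_induction (relS k N) with
  | h0 c => exact ⟨0, by simp⟩
  | h1 v =>
    refine ⟨fun l => algebraMap k _ (v l), ?_⟩
    rw [aug_gen, gen_sum]
    simp [Algebra.smul_def]
  | hm a b ha hb =>
    obtain ⟨z, hz⟩ := ha
    obtain ⟨w, hw⟩ := hb
    refine ⟨fun l => algebraMap k _ (aug (relS k N) b) * z l + a * w l, ?_⟩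
    have e1 : a * b = algebraMap k _ (aug (relS k N) b) * a + ∑ l, a * w l * xx k N l := by
      conv_lhs => rw [hw]
      rw [mul_add, Finset.mul_sum, Algebra.commutes]
      simp only [mul_assoc]
    have e2 : algebraMap k _ (aug (relS k N) b) * a =
        algebraMap k _ (aug (relS k N) (a * b)) +
          ∑ l, algebraMap k _ (aug (relS k N) b) * z l * xx k N l := by
      conv_lhs => rw [hz]
      rw [mul_add, Finset.mul_sum, ← map_mul, map_mul (aug _), mul_comm (aug _ a)]
      simp only [mul_assoc, map_mul, xx]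
    rw [e1, e2, add_assoc, ← Finset.sum_add_distrib]
    simp only [add_mul, map_add, map_sum, map_mul, AlgHom.commutes, xx, aug_gen]
    simp
  | ha a b ha hb =>
    obtain ⟨z, hz⟩ := ha
    obtain ⟨w, hw⟩ := hb
    refine ⟨z + w, ?_⟩
    conv_lhs => rw [hz, hw]
    simp only [map_add, Pi.add_apply, add_mul, Finset.sum_add_distrib]
    abel

/-- the image of `A ⊗ R` in `A ⊗ V` -/
noncomputable def imR : Submodule (QuadAlg (relS k N)) (Fin m → QuadAlg (relS k N)) :=
  LinearMap.range (lin (xx k N) N).vecMulLinear

/-- the cokernel of `A ⊗ R → A ⊗ V` -/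
def MM : Type u := (Fin m → QuadAlg (relS k N)) ⧸ imR k N

noncomputable instance : AddCommGroup (MM k N) :=
  inferInstanceAs (AddCommGroup ((Fin m → QuadAlg (relS k N)) ⧸ imR k N))

noncomputable instance : Module (QuadAlg (relS k N)) (MM k N) :=
  inferInstanceAs (Module (QuadAlg (relS k N)) ((Fin m → QuadAlg (relS k N)) ⧸ imR k N))

noncomputable instance : Module k (MM k N) :=
  Module.compHom _ (algebraMap k (QuadAlg (relS k N)))

instance : IsScalarTower k (QuadAlg (relS k N)) (MM k N) where
  smul_assoc _ _ _ := by rw [Algebra.smul_def, mul_smul]; rfl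

/-- the projection to the cokernel -/
noncomputable def mkM : (Fin m → QuadAlg (relS k N)) →ₗ[QuadAlg (relS k N)] MM k N :=
  (imR k N).mkQ

theorem mkM_eq_zero (z : Fin m → QuadAlg (relS k N)) :
    mkM k N z = 0 ↔ ∃ w, w ᵥ* lin (xx k N) N = z :=
  Submodule.Quotient.mk_eq_zero (imR k N)

/-- the class of the basis vector -/
noncomputable def ee (l : Fin m) : MM k N := mkM k N (Pi.single l 1)

/-- action of a generator on `M × k` -/
noncomputable def actG (l : Fin m) : Module.End k (MM k N × k) where
  toFun y := (xx k N l • y.1 + y.2 • ee k N l, 0)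
  map_add' y y' := by
    ext
    · simp only [Prod.fst_add, Prod.snd_add, smul_add, add_smul]
      abel
    · simp
  map_smul' c y := by
    ext
    · simp only [Prod.smul_fst, Prod.smul_snd, RingHom.id_apply, smul_add, smul_eq_mul, mul_smul]
      rw [smul_comm]
    · simp

theorem actG_apply (l : Fin m) (y : MM k N × k) :
    actG k N l y = (xx k N l • y.1 + y.2 • ee k N l, 0) := rfl

/-- action of `V` on `M × k` -/
noncomputable def actV : (Fin m → k) →ₗ[k] Module.End k (MM k N × k) :=
  Fintype.linearCombination k (actG k N)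

theorem actV_single (l : Fin m) : actV k N (Pi.single l 1) = actG k N l := by
  simp [actV]

theorem row_zero (r : Fin p) : ∑ j, ∑ l, N j r l • (xx k N j • ee k N l) = 0 := by
  have h : mkM k N ((Pi.single r 1 : Fin p → QuadAlg (relS k N)) ᵥ* lin (xx k N) N) = 0 :=
    (mkM_eq_zero k N _).2 ⟨Pi.single r 1, rfl⟩
  rw [← h]
  have hv : (Pi.single r 1 : Fin p → QuadAlg (relS k N)) ᵥ* lin (xx k N) N =
      ∑ j, ∑ l, N j r l • (xx k N j • (Pi.single l 1 : Fin m → QuadAlg (relS k N))) := by
    ext b
    simp [lin, Finset.sum_apply, Pi.single_apply]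
  rw [hv]
  simp only [map_sum, map_zsmul, map_smul]
  rfl

theorem act_rel (r : Fin p) : ∑ j, ∑ l, N j r l • (actG k N j * actG k N l) = 0 := by
  apply LinearMap.ext
  rintro ⟨y, c⟩
  simp only [LinearMap.sum_apply, LinearMap.smul_apply, Module.End.mul_apply, actG_apply,
    LinearMap.zero_apply, zero_smul, add_zero]
  ext
  · simp only [Prod.fst_sum, Prod.smul_fst, smul_add, Finset.sum_add_distrib, Prod.fst_zero]
    have h1 : ∑ j, ∑ l, N j r l • xx k N j • xx k N l • y =
        (∑ j, ∑ l, N j r l • (xx k N j * xx k N l)) • y := by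
      simp only [Finset.sum_smul, smul_assoc, mul_smul]
    have h2 : ∑ j, ∑ l, N j r l • xx k N j • c • ee k N l =
        c • ∑ j, ∑ l, N j r l • (xx k N j • ee k N l) := by
      simp only [Finset.smul_sum]
      refine Finset.sum_congr rfl fun j _ => Finset.sum_congr rfl fun l _ => ?_
      rw [smul_comm (xx k N j) c, smul_comm c (N j r l)]
    rw [h1, h2, rel_zero, row_zero, zero_smul, smul_zero, add_zero]
  · simp [Prod.snd_sum]

/-- the action of `A` on `M × k` -/
noncomputable def act : QuadAlg (relS k N) →ₐ[k] Module.End k (MM k N × k) :=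
  RingQuot.liftAlgHom k ⟨TensorAlgebra.lift k (actV k N), by
    rintro x y ⟨r, hr, rfl, rfl⟩
    rw [map_zero]
    induction hr using Submodule.span_induction with
    | mem t ht =>
      obtain ⟨r, rfl⟩ := ht
      simp only [relT, map_sum, map_zsmul, degTwo_tmul, map_mul, TensorAlgebra.lift_ι_apply,
        actV_single]
      exact act_rel k N r
    | zero => simp
    | add a b _ _ ha hb => rw [map_add, map_add, ha, hb, add_zero]
    | smul c a _ ha => rw [map_smul, map_smul, ha, smul_zero]⟩

theorem act_xx (l : Fin m) : act k N (xx k N l) = actG k N l := by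
  rw [xx, gen_eq, act, RingQuot.liftAlgHom_mkAlgHom_apply, TensorAlgebra.lift_ι_apply,
    actV_single]

theorem act_fst (a : QuadAlg (relS k N)) : ∀ y : MM k N, act k N a (y, 0) = (a • y, 0) := by
  induction a using alg_induction (relS k N) with
  | h0 c =>
    intro y
    rw [AlgHom.commutes]
    simp
  | h1 v =>
    intro y
    rw [gen_sum, map_sum]
    simp only [map_smul, act_xx, LinearMap.sum_apply, LinearMap.smul_apply, actG_apply,
      zero_smul, add_zero]
    ext
    · simp [Prod.fst_sum, Finset.sum_smul]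
    · simp [Prod.snd_sum]
  | hm a b ha hb =>
    intro y
    rw [map_mul, Module.End.mul_apply, hb, ha, mul_smul]
  | ha a b ha hb =>
    intro y
    rw [map_add, LinearMap.add_apply, ha, hb, add_smul]
    simp

theorem exact_one (z : Fin m → QuadAlg (relS k N)) (hz : ∑ l, z l * xx k N l = 0) :
    ∃ w, w ᵥ* lin (xx k N) N = z := by
  have h := congrArg (fun a => (act k N a (0, 1)).1) hz
  simp only [map_sum, map_mul, LinearMap.sum_apply, Module.End.mul_apply, act_xx, actG_apply,
    act_fst, smul_zero, one_smul, zero_add, Prod.fst_sum, map_zero, LinearMap.zero_apply,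
    Prod.fst_zero] at h
  have hv : z = ∑ l, z l • (Pi.single l 1 : Fin m → QuadAlg (relS k N)) := by
    ext b
    simp [Finset.sum_apply, Pi.single_apply]
  have h2 : mkM k N z = 0 := by
    rw [hv, map_sum]
    simp only [map_smul]
    exact h
  exact (mkM_eq_zero k N _).1 h2

end Pool.Agent.H832Z.Kos
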