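import Pool.Agent.H832Z.KosLow
import Pool.Agent.H832Z.KosCheck

/-! The Koszul algebra with Betti numbers `1, 4, 7, 8, 7, 4, 1`. -/

namespace Pool.Agent.H832Z.Kos

open TensorProduct Matrix

universe u

variable (k : Type u) [Field k]

/-- the complexes of the Koszul filtration -/
noncomputable def XX (f : ℕ) : Cx (QuadAlg (relS k NN)) where
  r := rr f
  D i := lin (xx k NN) (DM f i)

/-- the short exact sequences of the Koszul filtration -/
noncomputable def SS (f : ℕ) (h0 : 0 < f) (h7 : f ≤ 7) :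
    SES (XX k f) (XX k (Jf f)) (XX k (Cf f)) where
  io := ioM f
  tt := ttM f
  rho := rhM f
  sg := sgM f
  h1 i := cst_lin_comm _ _ _ _ _ fun j => by
    rcases Nat.lt_or_ge i 7 with hi | hi
    · exact c1 ⟨f, by omega⟩ h0 ⟨i, hi⟩ j
    · exact mat_ext_big (f := f) (by omega) _ _
  h2 i := cst_lin_comm _ _ _ _ _ fun j => by
    rcases Nat.lt_or_ge i 7 with hi | hi
    · exact c2 ⟨f, by omega⟩ h0 ⟨i, hi⟩ j
    · exact mat_ext_big (f := Jf f) (by omega) _ _
  h3 i := by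
    rcases Nat.lt_or_ge i 7 with hi | hi
    · exact c3 ⟨f, by omega⟩ h0 ⟨i, hi⟩
    · exact mat_ext_big (f := f) (by omega) _ _
  h4 i := by
    rcases Nat.lt_or_ge i 7 with hi | hi
    · exact c4 ⟨f, by omega⟩ h0 ⟨i, hi⟩
    · exact mat_ext_big (f := Cf f) hi _ _
  h5 i := by
    rcases Nat.lt_or_ge i 7 with hi | hi
    · exact c5 ⟨f, by omega⟩ h0 ⟨i, hi⟩
    · exact mat_ext_big (f := f) hi _ _
  h6 i := by
    rcases Nat.lt_or_ge i 7 with hi | hi
    · exact c6 ⟨f, by omega⟩ h0 ⟨i, hi⟩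
    · exact mat_ext_big (f := Jf f) (by omega) _ _

theorem raise (f : ℕ) : Raise (GG (relS k NN)) (XX k f) := fun _ n _ hv =>
  hv.lin (fun a ha _ => mul_gen_mem _ n a ha _) _

theorem sq0 : Sq (XX k 0) := by
  intro i
  rcases Nat.lt_or_ge i 7 with hi | hi
  · exact lin_mul_lin_zero (xx k NN) NN (rel_zero k NN) _ _ _ (c7 ⟨i, hi⟩)
  · ext a b
    exact absurd (a.isLt.trans_eq (rr_big 0 _ (by omega))) (Nat.not_lt_zero _)

theorem DM00 : ∀ (j a : Fin 4) (b : Fin 1), DM 0 0 j a b = if a = j then 1 else 0 := by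
  decide

theorem vecMul_D0 (z : Fin 4 → QuadAlg (relS k NN)) (b : Fin 1) :
    (z ᵥ* (lin (xx k NN) (DM 0 0) : Matrix (Fin 4) (Fin 1) _)) b = ∑ l, z l * xx k NN l :=
  lin_col (xx k NN) (DM 0 0) DM00 z b

theorem base (n : ℕ) : PP (GG (relS k NN)) (XX k 0) 0 n := by
  intro z hz hd
  have h1 := (vecMul_D0 k z 0).symm.trans (congrFun hd (0 : Fin 1))
  obtain ⟨w, hw⟩ := exact_one k NN z h1
  obtain ⟨w', h2, h3⟩ := truncate (relS k NN) (fun j => Pi.single j 1) NN (n := n) (w := w)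
    (by
      change InG _ (w ᵥ* lin (xx k NN) NN)
      rw [hw]
      exact hz)
  exact ⟨w', h2, h3.trans hw⟩

theorem all_PP (i n : ℕ) : PP (GG (relS k NN)) (XX k 0) i n :=
  koszul_filtration (GG_zero _) 7 (XX k) Jf Cf (SS k)
    (fun f h0 h7 => cJ ⟨f, by omega⟩ h0) (fun f _ h7 => cC ⟨f, by omega⟩) (raise k) (sq0 k)
    (fun i => by
      change rr 7 (i + 1) = 0
      rcases Nat.lt_or_ge i 7 with hi | hi
      · interval_cases i <;> rfl
      · exact rr_big _ _ (by omega))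
    (base k) i n

theorem exact_pos (i : ℕ) :
    Function.Exact (fun v => v ᵥ* (XX k 0).D (i + 1)) (fun v => v ᵥ* (XX k 0).D i) := by
  intro z
  constructor
  · intro hz
    obtain ⟨n, hn⟩ := exists_InG _ z
    obtain ⟨w, -, hw⟩ := all_PP k i n z hn hz
    exact ⟨w, hw⟩
  · rintro ⟨w, rfl⟩
    change (w ᵥ* (XX k 0).D (i + 1)) ᵥ* (XX k 0).D i = 0
    rw [vecMul_vecMul, sq0 k i, vecMul_zero]

theorem exact_zero :
    Function.Exact (fun v => v ᵥ* (XX k 0).D 0)
      (fun v : Fin ((XX k 0).r 0) → QuadAlg (relS k NN) => ∑ a, aug (relS k NN) (v a)) := by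
  intro (z : Fin 1 → _)
  change ∑ a : Fin 1, aug (relS k NN) (z a) = 0 ↔ _
  rw [Fin.sum_univ_one]
  constructor
  · intro hz
    obtain ⟨w, hw⟩ := aug_decomp k NN (z 0)
    rw [hz, map_zero, zero_add] at hw
    refine ⟨w, funext fun (b : Fin 1) => ?_⟩
    rw [Subsingleton.elim b 0, hw]
    exact vecMul_D0 k w 0
  · rintro ⟨w, hw⟩
    have h := (vecMul_D0 k w 0).symm.trans (congrFun hw (0 : Fin 1))
    rw [← h]
    simp [xx, aug_gen]

theorem entries (i : ℕ) (a : Fin ((XX k 0).r (i + 1))) (b : Fin ((XX k 0).r i)) :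
    (XX k 0).D i a b ∈ LinearMap.range (gen (relS k NN)) := by
  change ∑ j, DM 0 i j a b • xx k NN j ∈ _
  exact sum_mem fun j _ => zsmul_mem (LinearMap.mem_range_self (gen (relS k NN)) (Pi.single j 1)) _

theorem isKoszul : IsKoszul (relS k NN) :=
  ⟨(XX k 0).r, (XX k 0).D, rfl, entries k, exact_pos k, exact_zero k⟩

theorem betti_main (i : ℕ) : betti (relS k NN) i = rr 0 i :=
  betti_eq _ (XX k 0).r (XX k 0).D (exact_pos k) (exact_zero k) rfl (entries k) i

end Pool.Agent.H832Z.Kos
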