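import Mathlib

set_option autoImplicit false

namespace Pool.Agent.H832Z.Pat

variable {A : Type}

/-- The terminal-preserving morphism of patterns that sends the variable `v` to `φ v`. -/
def morph (φ : ℕ → List (ℕ ⊕ A)) (α : List (ℕ ⊕ A)) : List (ℕ ⊕ A) :=
  α.flatMap (Sum.elim φ (fun a => [Sum.inr a]))

/-- The substitution that sends the variable `v` to the word `σ v` and fixes the terminals. -/
def subst (σ : ℕ → List A) (α : List (ℕ ⊕ A)) : List A :=
  α.flatMap (Sum.elim σ (fun a => [a]))

/-- A pattern is morphically primitive if it is not morphically imprimitive. -/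
def Primitive (α : List (ℕ ⊕ A)) : Prop :=
  ¬ ∃ (β : List (ℕ ⊕ A)) (φ ψ : ℕ → List (ℕ ⊕ A)),
    β.length < α.length ∧ morph φ α = β ∧ morph ψ β = α

/-- For each position of the word `subst τ α`, whether it comes from an occurrence of a terminal
(`true`) or of a variable (`false`). -/
def origin (τ : ℕ → List A) (α : List (ℕ ⊕ A)) : List Bool :=
  α.flatMap (Sum.elim (fun v => (τ v).map (fun _ => false)) (fun _ => [true]))

/-- The word `w` is terminal-comprisingly ambiguous with respect to `α`. -/
def Ambiguous (α : List (ℕ ⊕ A)) (w : List A) : Prop :=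
  (∃ a : A, Sum.inr a ∈ α) ∧ ∃ τ₁ τ₂ : ℕ → List A, subst τ₁ α = w ∧ subst τ₂ α = w ∧
    ∃ j : ℕ, (origin τ₁ α)[j]? = some false ∧ (origin τ₂ α)[j]? = some true

end Pool.Agent.H832Z.Pat
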