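import Mathlib
import Pool.Agent.H832Z.PatDefs

set_option autoImplicit false

namespace Pool.Agent.H832Z.Pat

open Sum

variable {A : Type}

/-- the tail of the pattern -/
def pat : ℕ → List A → List (ℕ ⊕ A)
  | i, [] => [inl (4 * i + 1)]
  | i, c :: cs => [inl (4 * i + 3), inl (4 * i + 2), inl 0, inl (4 * i + 1), inr c, inl (4 * i + 4),
      inr c, inl (4 * i + 2), inl 0, inl (4 * (i + 1) + 1), inr c] ++ pat (i + 1) cs

/-- the pattern -/
def full (c : A) (cs : List A) : List (ℕ ⊕ A) := [inl 0, inl 1, inr c] ++ pat 0 cs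

theorem morph_append (φ : ℕ → List (ℕ ⊕ A)) (u v : List (ℕ ⊕ A)) :
    morph φ (u ++ v) = morph φ u ++ morph φ v := by simp [morph]

theorem morph_inl (φ : ℕ → List (ℕ ⊕ A)) (n : ℕ) (v : List (ℕ ⊕ A)) :
    morph φ (inl n :: v) = φ n ++ morph φ v := by simp [morph]

theorem morph_inr (φ : ℕ → List (ℕ ⊕ A)) (a : A) (v : List (ℕ ⊕ A)) :
    morph φ (inr a :: v) = inr a :: morph φ v := by simp [morph]

theorem morph_nil (φ : ℕ → List (ℕ ⊕ A)) : morph φ [] = [] := rfl

theorem morph_comp (φ ψ : ℕ → List (ℕ ⊕ A)) (α : List (ℕ ⊕ A)) :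
    morph ψ (morph φ α) = morph (fun v => morph ψ (φ v)) α := by
  induction α with
  | nil => rfl
  | cons x α ih =>
    cases x with
    | inl n => rw [morph_inl, morph_append, ih, morph_inl]
    | inr a => rw [morph_inr, morph_inr, ih, morph_inr]

theorem length_le_morph (φ : ℕ → List (ℕ ⊕ A)) (α : List (ℕ ⊕ A))
    (h : ∀ v, inl v ∈ α → φ v ≠ []) : α.length ≤ (morph φ α).length := by
  induction α with
  | nil => simp
  | cons x α ih =>
    have ih' := ih (fun v hv => h v (List.mem_cons_of_mem _ hv))
    cases x with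
    | inl n =>
      rw [morph_inl]
      have := List.length_pos_iff.2 (h n List.mem_cons_self)
      simp only [List.length_cons, List.length_append]
      omega
    | inr a => rw [morph_inr]; simpa using ih'

theorem count_le_morph (φ : ℕ → List (ℕ ⊕ A)) (α : List (ℕ ⊕ A)) :
    α.countP Sum.isRight ≤ (morph φ α).countP Sum.isRight := by
  induction α with
  | nil => simp
  | cons x α ih =>
    cases x with
    | inl n => rw [morph_inl]; simp only [List.countP_cons, List.countP_append]; simp; omega
    | inr a => rw [morph_inr]; simp only [List.countP_cons]; omega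

theorem count_zero (φ : ℕ → List (ℕ ⊕ A)) (α : List (ℕ ⊕ A))
    (h : (morph φ α).countP Sum.isRight = α.countP Sum.isRight) (v : ℕ) (hv : inl v ∈ α) :
    (φ v).countP Sum.isRight = 0 := by
  induction α with
  | nil => simp at hv
  | cons x α ih =>
    have hle := count_le_morph φ α
    cases x with
    | inl n =>
      rw [morph_inl] at h
      simp only [List.countP_cons, List.countP_append] at h
      simp only [isRight_inl, Bool.false_eq_true, if_false, add_zero] at h
      rcases List.mem_cons.1 hv with h1 | h1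
      · cases h1; omega
      · exact ih (by omega) h1
    | inr a =>
      rw [morph_inr] at h
      simp only [List.countP_cons] at h
      rcases List.mem_cons.1 hv with h1 | h1
      · cases h1
      · exact ih (by omega) h1

theorem split (u u' r r' : List (ℕ ⊕ A)) (a a' : A) (hu : u.countP Sum.isRight = 0)
    (hu' : u'.countP Sum.isRight = 0) (h : u ++ inr a :: r = u' ++ inr a' :: r') :
    u = u' ∧ r = r' := by
  induction u generalizing u' with
  | nil =>
    cases u' with
    | nil => simp at h; exact ⟨rfl, h.2⟩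
    | cons x u' =>
      simp only [List.nil_append, List.cons_append, List.cons.injEq] at h
      rw [← h.1] at hu'
      simp at hu'
  | cons x u ih =>
    cases u' with
    | nil =>
      simp only [List.nil_append, List.cons_append, List.cons.injEq] at h
      rw [h.1] at hu
      simp at hu
    | cons x' u' =>
      simp only [List.cons_append, List.cons.injEq] at h
      simp only [List.countP_cons] at hu hu'
      obtain ⟨h1, h2⟩ := ih u' (by omega) (by omega) h.2
      exact ⟨by rw [h.1, h1], h2⟩

theorem block_split (h : ℕ → List (ℕ ⊕ A)) (i : ℕ) (c : A) (cs : List A)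
    (h0 : ∀ v, inl v ∈ pat i (c :: cs) → (h v).countP Sum.isRight = 0)
    (hf : morph h (pat i (c :: cs)) = pat i (c :: cs)) :
    h (4 * i + 3) ++ (h (4 * i + 2) ++ (h 0 ++ h (4 * i + 1))) =
      [inl (4 * i + 3), inl (4 * i + 2), inl 0, inl (4 * i + 1)] ∧
    h (4 * i + 4) = [inl (4 * i + 4)] ∧
    h (4 * i + 2) ++ (h 0 ++ h (4 * (i + 1) + 1)) = [inl (4 * i + 2), inl 0, inl (4 * (i + 1) + 1)] ∧
    morph h (pat (i + 1) cs) = pat (i + 1) cs := by
  have a1 := h0 (4 * i + 3) (by simp [pat])
  have a2 := h0 (4 * i + 2) (by simp [pat])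
  have a3 := h0 0 (by simp [pat])
  have a4 := h0 (4 * i + 1) (by simp [pat])
  have a5 := h0 (4 * i + 4) (by simp [pat])
  have a6 := h0 (4 * (i + 1) + 1) (by simp [pat])
  simp only [pat, List.cons_append, List.nil_append, morph_inl, morph_inr] at hf
  obtain ⟨e1, hf⟩ := split (h (4 * i + 3) ++ (h (4 * i + 2) ++ (h 0 ++ h (4 * i + 1))))
    [inl (4 * i + 3), inl (4 * i + 2), inl 0, inl (4 * i + 1)] _ _ c c
    (by simp only [List.countP_append]; omega) (by simp)
    (by simpa only [List.append_assoc, List.cons_append, List.nil_append] using hf)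
  obtain ⟨e2, hf⟩ := split (h (4 * i + 4)) [inl (4 * i + 4)] _ _ c c a5 (by simp)
    (by simpa only [List.append_assoc, List.cons_append, List.nil_append] using hf)
  obtain ⟨e3, hf⟩ := split (h (4 * i + 2) ++ (h 0 ++ h (4 * (i + 1) + 1)))
    [inl (4 * i + 2), inl 0, inl (4 * (i + 1) + 1)] _ _ c c
    (by simp only [List.countP_append]; omega) (by simp)
    (by simpa only [List.append_assoc, List.cons_append, List.nil_append] using hf)
  exact ⟨e1, e2, e3, hf⟩

theorem mem_tail {i : ℕ} {c : A} {cs : List A} {x : ℕ ⊕ A} (hx : x ∈ pat (i + 1) cs) :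
    x ∈ pat i (c :: cs) := by
  simp only [pat]
  exact List.mem_append_right _ hx

theorem erase_false (h : ℕ → List (ℕ ⊕ A)) (hy : h 0 = []) (cs : List A) : ∀ i : ℕ,
    (∀ v, inl v ∈ pat i cs → (h v).countP Sum.isRight = 0) → morph h (pat i cs) = pat i cs →
    (h (4 * i + 1) = [inl 0, inl (4 * i + 1)] ∨
      ∃ j, j < i ∧ h (4 * i + 1) = [inl (4 * j + 2), inl 0, inl (4 * i + 1)]) → False := by
  induction cs with
  | nil =>
    intro i _ hf hq
    simp only [pat, morph_inl, morph_nil, List.append_nil] at hf
    rcases hq with hq | ⟨j, _, hq⟩ <;> rw [hq] at hf <;> simp at hf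
  | cons c cs ih =>
    intro i h0 hf hq
    obtain ⟨e1, _, e3, hf'⟩ := block_split h i c cs h0 hf
    rw [hy, List.nil_append] at e1 e3
    apply ih (i + 1) (fun v hv => h0 v (mem_tail hv)) hf'
    rcases hq with hq | ⟨j, hj, hq⟩
    · rw [hq, ← List.append_assoc] at e1
      have e4 : h (4 * i + 3) ++ h (4 * i + 2) = [inl (4 * i + 3), inl (4 * i + 2)] :=
        List.append_cancel_right (bs := [inl 0, inl (4 * i + 1)]) (by simpa using e1)
      rcases hp : h (4 * i + 2) with _ | ⟨a, _ | ⟨b, t⟩⟩
      · rw [hp] at e3
        right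
        exact ⟨i, by omega, e3⟩
      · rw [hp] at e3
        left
        simp only [List.cons_append, List.nil_append, List.cons.injEq] at e3
        exact e3.2
      · exfalso
        rw [hp] at e3 e4
        simp only [List.cons_append, List.cons.injEq] at e3
        have : (inl 0 : ℕ ⊕ A) ∈ h (4 * i + 3) ++ a :: b :: t := by
          rw [e3.2.1]; simp
        rw [e4] at this
        simp at this
    · exfalso
      rw [hq, ← List.append_assoc] at e1
      have e4 := congrArg List.reverse e1
      simp at e4
      omega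

theorem keep_all (h : ℕ → List (ℕ ⊕ A)) (hy : h 0 = [inl 0]) (cs : List A) : ∀ i : ℕ,
    (∀ v, inl v ∈ pat i cs → (h v).countP Sum.isRight = 0) → morph h (pat i cs) = pat i cs →
    h (4 * i + 1) = [inl (4 * i + 1)] → ∀ v, inl v ∈ pat i cs → h v ≠ [] := by
  induction cs with
  | nil =>
    intro i _ _ hq v hv
    simp only [pat, List.mem_singleton, inl.injEq] at hv
    rw [hv, hq]; simp
  | cons c cs ih =>
    intro i h0 hf hq v hv
    obtain ⟨e1, e2, e3, hf'⟩ := block_split h i c cs h0 hf
    rw [hy] at e1 e3
    have hp : h (4 * i + 2) = [inl (4 * i + 2)] ∧ h (4 * (i + 1) + 1) = [inl (4 * (i + 1) + 1)] := by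
      rcases hp : h (4 * i + 2) with _ | ⟨a, _ | ⟨b, _ | ⟨d, t⟩⟩⟩
      · rw [hp] at e3; simp at e3
      · rw [hp] at e3
        simp only [List.cons_append, List.nil_append, List.cons.injEq] at e3
        exact ⟨by rw [e3.1], e3.2.2⟩
      · rw [hp] at e3; simp at e3
      · rw [hp] at e3; simp at e3
    have hs : h (4 * i + 3) = [inl (4 * i + 3)] := by
      rw [hq, hp.1] at e1
      exact List.append_cancel_right (bs := [inl (4 * i + 2), inl 0, inl (4 * i + 1)])
        (by simpa using e1)
    simp only [pat, List.cons_append, List.nil_append, List.mem_cons, inl.injEq, reduceCtorEq,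
      false_or] at hv
    rcases hv with rfl | rfl | rfl | rfl | rfl | rfl | rfl | rfl | hv
    · rw [hs]; simp
    · rw [hp.1]; simp
    · rw [hy]; simp
    · rw [hq]; simp
    · rw [e2]; simp
    · rw [hp.1]; simp
    · rw [hy]; simp
    · rw [hp.2]; simp
    · exact ih (i + 1) (fun v hv => h0 v (mem_tail hv)) hf' hp.2 v hv

theorem full_primitive (c₀ c : A) (cs : List A) : Primitive (full c₀ (c :: cs)) := by
  rintro ⟨β, φ, ψ, hlen, hφ, hψ⟩
  set h : ℕ → List (ℕ ⊕ A) := fun v => morph ψ (φ v) with hh
  have hf : morph h (full c₀ (c :: cs)) = full c₀ (c :: cs) := by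
    rw [hh, ← morph_comp, hφ, hψ]
  have h0 := count_zero h _ (by rw [hf])
  have key : ∀ v, inl v ∈ full c₀ (c :: cs) → h v ≠ [] := by
    have a0 := h0 0 (by simp [full])
    have a1 := h0 1 (by simp [full])
    have h0' : ∀ v, inl v ∈ pat 0 (c :: cs) → (h v).countP Sum.isRight = 0 :=
      fun v hv => h0 v (List.mem_append_right _ hv)
    simp only [full, List.cons_append, List.nil_append, morph_inl, morph_inr] at hf
    obtain ⟨e1, hf'⟩ := split (h 0 ++ h 1) [inl 0, inl 1] _ _ c₀ c₀
      (by simp only [List.countP_append]; omega) (by simp)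
      (by simpa only [List.append_assoc, List.cons_append, List.nil_append] using hf)
    rcases hy : h 0 with _ | ⟨a, _ | ⟨b, t⟩⟩
    · exfalso
      rw [hy] at e1
      exact erase_false h hy (c :: cs) 0 h0' hf' (Or.inl e1)
    · rw [hy] at e1
      simp only [List.cons_append, List.nil_append, List.cons.injEq] at e1
      have hy' : h 0 = [inl 0] := by rw [hy, e1.1]
      intro v hv
      simp only [full, List.cons_append, List.nil_append, List.mem_cons, inl.injEq, reduceCtorEq,
        false_or] at hv
      rcases hv with rfl | rfl | hv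
      · rw [hy']; simp
      · rw [e1.2]; simp
      · exact keep_all h hy' (c :: cs) 0 h0' hf' e1.2 v hv
    · exfalso
      obtain ⟨_, _, e3, _⟩ := block_split h 0 c cs h0' hf'
      rw [hy] at e1 e3
      simp only [List.cons_append, List.cons.injEq] at e1
      have : (inl 1 : ℕ ⊕ A) ∈ h (4 * 0 + 2) ++ (a :: b :: t ++ h (4 * (0 + 1) + 1)) := by
        rw [e1.2.1]; simp
      rw [e3] at this
      simp at this
  have := length_le_morph φ (full c₀ (c :: cs)) (fun v hv hv' => key v hv (by
    simp only [hh]; rw [hv']; rfl))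
  rw [hφ] at this
  omega

theorem subst_append (σ : ℕ → List A) (u v : List (ℕ ⊕ A)) :
    subst σ (u ++ v) = subst σ u ++ subst σ v := by simp [subst]

theorem origin_append (σ : ℕ → List A) (u v : List (ℕ ⊕ A)) :
    origin σ (u ++ v) = origin σ u ++ origin σ v := by simp [origin]

theorem length_origin (σ : ℕ → List A) (u : List (ℕ ⊕ A)) :
    (origin σ u).length = (subst σ u).length := by
  induction u with
  | nil => rfl
  | cons x u ih =>
    have e1 := origin_append σ [x] u
    have e2 := subst_append σ [x] u
    simp only [List.singleton_append] at e1 e2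
    rw [e1, e2, List.length_append, List.length_append, ih]
    cases x <;> simp [origin, subst]

/-- both substitutions give the same word and some terminal moves -/
def Amb (σ τ : ℕ → List A) (α : List (ℕ ⊕ A)) : Prop :=
  subst τ α = subst σ α ∧ ∃ j : ℕ, (origin σ α)[j]? = some false ∧ (origin τ α)[j]? = some true

theorem amb_left {σ τ : ℕ → List A} {u v : List (ℕ ⊕ A)} (hu : subst τ u = subst σ u)
    (hv : Amb σ τ v) : Amb σ τ (u ++ v) := by
  obtain ⟨h1, j, h2, h3⟩ := hv
  refine ⟨by rw [subst_append, subst_append, hu, h1], (subst σ u).length + j, ?_, ?_⟩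
  · rw [origin_append, ← length_origin, List.getElem?_append_right (by omega)]
    simpa using h2
  · rw [origin_append, ← hu, ← length_origin, List.getElem?_append_right (by omega)]
    simpa using h3

theorem amb_right {σ τ : ℕ → List A} {u v : List (ℕ ⊕ A)} (hu : Amb σ τ u)
    (hv : subst τ v = subst σ v) : Amb σ τ (u ++ v) := by
  obtain ⟨h1, j, h2, h3⟩ := hu
  refine ⟨by rw [subst_append, subst_append, hv, h1], j, ?_, ?_⟩
  · rw [origin_append, List.getElem?_append_left (List.getElem?_eq_some_iff.1 h2).1, h2]
  · rw [origin_append, List.getElem?_append_left (List.getElem?_eq_some_iff.1 h3).1, h3]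

theorem getElem?_last (l : List Bool) (b : Bool) (n : ℕ) (h : n = l.length) :
    (l ++ [b])[n]? = some b := by
  subst h; simp

theorem amb_exists (σ : ℕ → List A) (y₁ : List A) (c : A) (hy : σ 0 = y₁ ++ [c]) (c₀ : A)
    (cs₁ cs₂ : List A) : ∃ τ, Amb σ τ (full c₀ (cs₁ ++ c :: cs₂)) := by
  set i := cs₁.length with hi
  set τ : ℕ → List A := fun v =>
    if v = 0 then [] else if v % 4 = 1 then (if v / 4 ≤ i then σ 0 ++ σ v else σ v)
    else if v % 4 = 2 then (if v / 4 < i then σ v else if v / 4 = i then [] else σ v ++ σ 0)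
    else if v = 4 * i + 3 then σ v ++ σ (4 * i + 2)
    else if v = 4 * i + 4 then σ v ++ c :: (σ (4 * i + 2) ++ y₁) else σ v with hτ
  have t0 : τ 0 = [] := by simp [hτ]
  have tq : ∀ j, τ (4 * j + 1) = if j ≤ i then σ 0 ++ σ (4 * j + 1) else σ (4 * j + 1) := by
    intro j
    simp only [hτ]
    rw [if_neg (by omega), if_pos (by omega), show (4 * j + 1) / 4 = j by omega]
  have tp : ∀ j, τ (4 * j + 2) =
      if j < i then σ (4 * j + 2) else if j = i then [] else σ (4 * j + 2) ++ σ 0 := by
    intro j
    simp only [hτ]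
    rw [if_neg (by omega), if_neg (by omega), if_pos (by omega), show (4 * j + 2) / 4 = j by omega]
  have ts : ∀ j, τ (4 * j + 3) = if j = i then σ (4 * j + 3) ++ σ (4 * i + 2) else σ (4 * j + 3) := by
    intro j
    simp only [hτ]
    rw [if_neg (by omega), if_neg (by omega), if_neg (by omega)]
    by_cases h : j = i
    · rw [if_pos (by omega), if_pos h]
    · rw [if_neg (by omega), if_neg (by omega), if_neg h]
  have tx : ∀ j, τ (4 * j + 4) =
      if j = i then σ (4 * j + 4) ++ c :: (σ (4 * i + 2) ++ y₁) else σ (4 * j + 4) := by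
    intro j
    simp only [hτ]
    rw [if_neg (by omega), if_neg (by omega), if_neg (by omega), if_neg (by omega)]
    by_cases h : j = i
    · rw [if_pos (by omega), if_pos h]
    · rw [if_neg (by omega), if_neg h]
  have after : ∀ (cs : List A) (j : ℕ), i < j → subst τ (pat j cs) = subst σ (pat j cs) := by
    intro cs
    induction cs with
    | nil =>
      intro j hj
      simp [pat, subst, tq, show ¬ j ≤ i by omega]
    | cons d cs ih =>
      intro j hj
      simp only [pat]
      rw [subst_append, subst_append, ih (j + 1) (by omega)]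
      congr 1
      simp [subst, t0, tq, tp, ts, tx, show ¬ j ≤ i by omega, show ¬ j + 1 ≤ i by omega,
        show ¬ j < i by omega, show ¬ j = i by omega]
  have before : ∀ (cs : List A) (j : ℕ), j + cs.length = i → Amb σ τ (pat j (cs ++ c :: cs₂)) := by
    intro cs
    induction cs with
    | nil =>
      intro j hj
      have hj' : j = i := by simpa using hj
      simp only [List.nil_append, pat]
      apply amb_right _ (after cs₂ (j + 1) (by omega))
      have e : ([inl (4 * j + 3), inl (4 * j + 2), inl 0, inl (4 * j + 1), inr c, inl (4 * j + 4),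
          inr c, inl (4 * j + 2), inl 0, inl (4 * (j + 1) + 1), inr c] : List (ℕ ⊕ A)) =
          [inl (4 * j + 3), inl (4 * j + 2), inl 0, inl (4 * j + 1), inr c] ++
          ([inl (4 * j + 4), inr c, inl (4 * j + 2), inl 0] ++ [inl (4 * (j + 1) + 1), inr c]) := rfl
      rw [e]
      apply amb_left
      · simp [subst, t0, tq, tp, ts, hj']
      apply amb_right
      · refine ⟨?_, (σ (4 * j + 4)).length + 1 + (σ (4 * j + 2)).length + y₁.length, ?_, ?_⟩
        · simp [subst, t0, tp, tx, hj', hy]
        · have e2 : origin σ [inl (4 * j + 4), inr c, inl (4 * j + 2), inl 0] =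
              ((σ (4 * j + 4)).map (fun _ => false) ++ true :: ((σ (4 * j + 2)).map (fun _ => false)
                ++ y₁.map (fun _ => false))) ++ [false] := by
            simp only [origin, hy, List.flatMap_cons, List.flatMap_nil, Sum.elim_inl, Sum.elim_inr,
              List.map_append, List.map_cons, List.map_nil, List.append_nil, List.append_assoc,
              List.cons_append, List.nil_append]
          rw [e2]
          exact getElem?_last _ _ _ (by simp; omega)
        · have e2 : origin τ [inl (4 * j + 4), inr c, inl (4 * j + 2), inl 0] =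
              ((σ (4 * j + 4)) ++ c :: (σ (4 * j + 2) ++ y₁)).map (fun _ => false) ++ [true] := by
            simp only [origin, List.flatMap_cons, List.flatMap_nil, Sum.elim_inl, Sum.elim_inr,
              t0, tp, tx, hj', if_true, lt_irrefl, if_false, List.map_nil, List.append_nil]
          rw [e2]
          exact getElem?_last _ _ _ (by simp; omega)
      · simp [subst, tq, show ¬ j + 1 ≤ i by omega]
    | cons d cs ih =>
      intro j hj
      simp only [List.length_cons] at hj
      simp only [List.cons_append, pat]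
      apply amb_left (u := [inl (4 * j + 3), inl (4 * j + 2), inl 0, inl (4 * j + 1), inr d,
        inl (4 * j + 4), inr d, inl (4 * j + 2), inl 0, inl (4 * (j + 1) + 1), inr d])
        _ (ih (j + 1) (by omega))
      simp [subst, t0, tq, tp, ts, tx, show j ≤ i by omega, show j + 1 ≤ i by omega,
        show j < i by omega, show ¬ j = i by omega]
  refine ⟨τ, amb_left ?_ (before cs₁ 0 (by omega))⟩
  have := tq 0
  simp only [Nat.mul_zero, Nat.zero_add, Nat.zero_le, if_true] at this
  simp [subst, t0, this]

theorem main (A : Type) [Finite A] [Nonempty A] :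
    ∃ α : List (ℕ ⊕ A), Primitive α ∧
      ∀ σ : ℕ → List A, (∀ v, inl v ∈ α → σ v ≠ []) → Ambiguous α (subst σ α) := by
  classical
  have := Fintype.ofFinite A
  obtain ⟨c₀⟩ := ‹Nonempty A›
  refine ⟨full c₀ (c₀ :: (Finset.univ : Finset A).toList), full_primitive _ _ _, fun σ hσ => ?_⟩
  have h0 := hσ 0 (by simp [full])
  have hy : σ 0 = (σ 0).dropLast ++ [(σ 0).getLast h0] := (List.dropLast_append_getLast h0).symm
  have hm : (σ 0).getLast h0 ∈ c₀ :: (Finset.univ : Finset A).toList := by simp
  obtain ⟨cs₁, cs₂, e⟩ := List.append_of_mem hm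
  obtain ⟨τ, h1, h2⟩ := amb_exists σ _ _ hy c₀ cs₁ cs₂
  rw [← e] at h1 h2
  exact ⟨⟨c₀, by simp [full]⟩, σ, τ, rfl, h1, h2⟩

end Pool.Agent.H832Z.Pat
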